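import Pool.Agent.TH724.SE.Fib

/-!
# The family of diffeomorphisms
-/

set_option autoImplicit false

open Filter Topology Set MeasureTheory

namespace Pool.Agent.TH724.SE

/-- The parameters. -/
noncomputable def sV (x : ℕ → ℝ) (n : ℕ) : ℝ := (1 + Real.cos (x n)) / 100

lemma sV_nonneg (x : ℕ → ℝ) (n : ℕ) : 0 ≤ sV x n := by
  have := Real.neg_one_le_cos (x n)
  unfold sV
  linarith

lemma sV_le (x : ℕ → ℝ) (n : ℕ) : sV x n ≤ 1 / 50 := by
  have := Real.cos_le_one (x n)
  unfold sV
  linarith

lemma abs_sV (x : ℕ → ℝ) (n : ℕ) : |sV x n| ≤ 1 := by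
  rw [abs_of_nonneg (sV_nonneg x n)]
  linarith [sV_le x n]

lemma sV_sub (x y : ℕ → ℝ) (n : ℕ) : |sV x n - sV y n| ≤ |x n - y n| := by
  have h1 : sV x n - sV y n = (Real.cos (x n) - Real.cos (y n)) / 100 := by
    unfold sV
    ring
  have h2 : |Real.cos (x n) - Real.cos (y n)| ≤ |x n - y n| := by
    rw [Real.cos_sub_cos, abs_mul, abs_mul]
    have h3 := Real.abs_sin_le_one ((x n + y n) / 2)
    have h4 : |Real.sin ((x n - y n) / 2)| ≤ |x n - y n| / 2 := by
      refine Real.abs_sin_le_abs.trans ?_
      rw [abs_div, abs_two]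
    have h5 := abs_nonneg (Real.sin ((x n + y n) / 2))
    have h6 := abs_nonneg (Real.sin ((x n - y n) / 2))
    have h7 : |(-2 : ℝ)| = 2 := by norm_num
    rw [h7]
    nlinarith
  rw [h1, abs_div]
  have h8 : |(100 : ℝ)| = 100 := by norm_num
  rw [h8]
  have := abs_nonneg (Real.cos (x n) - Real.cos (y n))
  linarith

lemma continuous_param (z : K) : Continuous fun x : ℕ → ℝ => F (sV x) z := by
  refine continuous_tsum (u := dd 1) (fun n => ?_) (summable_dd 1) fun n x => ?_
  · refine Continuous.mul ?_ continuous_const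
    unfold sV
    exact (continuous_const.add (Real.continuous_cos.comp (continuous_apply n))).div_const _
  · have := abs_term (abs_sV x) 1 n z
    rwa [one_smul] at this

/-- The vertical translations. -/
noncomputable def vt (U : K → K) (p : Tor) : Tor := (p.1, p.2 + U p.1)

lemma mp_vt {U : K → K} (hU : Measurable U) : MeasurePreserving (vt U) volume volume := by
  have hg : Measurable (Function.uncurry fun x y : K => y + U x) :=
    measurable_snd.add (hU.comp measurable_fst)
  exact (MeasurePreserving.id (volume : Measure K)).skew_product hg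
    (Eventually.of_forall fun x => (measurePreserving_add_right volume (U x)).map_eq)

/-- Close parameters give isomorphic skew products. -/
theorem close_iso {s t : ℕ → ℝ} (hs : ∀ n, |s n| ≤ 1) (ht : ∀ n, |t n| ≤ 1)
    (h : Summable fun n => |s n - t n|) :
    ∃ φ ψ : Tor → Tor, MeasurePreserving φ volume volume ∧ MeasurePreserving ψ volume volume ∧
      ψ ∘ φ = id ∧ φ ∘ ψ = id ∧ φ ∘ sk (ph s) = sk (ph t) ∘ φ := by
  let U : K → ℝ := fun x => ∑' n, (t n - s n) * C n x
  have hb : ∀ n x, ‖(t n - s n) * C n x‖ ≤ |s n - t n| := by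
    intro n x
    rw [norm_mul, Real.norm_eq_abs, Real.norm_eq_abs, abs_sub_comm]
    have h1 := abs_C_le n x
    have h2 := abs_nonneg (s n - t n)
    nlinarith
  have hsum : ∀ x, Summable fun n => (t n - s n) * C n x := fun x =>
    Summable.of_norm_bounded h fun n => hb n x
  have hU : Continuous U := by
    refine continuous_tsum (fun n => ?_) h hb
    exact continuous_const.mul (continuous_C n)
  have hV : Continuous fun x => ((U x : ℝ) : K) := (AddCircle.continuous_mk' 1).comp hU
  refine ⟨vt fun x => ((U x : ℝ) : K), vt fun x => -((U x : ℝ) : K), mp_vt hV.measurable,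
    mp_vt hV.neg.measurable, ?_, ?_, ?_⟩
  · funext p
    simp [vt]
  · funext p
    simp [vt]
  · funext p
    have hk : F s p.1 + U (p.1 + a) = U p.1 + F t p.1 := by
      have e1 := summable_term hs 1 p.1
      have e2 := summable_term ht 1 p.1
      rw [one_smul] at e1 e2
      simp only [U, F]
      rw [← e1.tsum_add (hsum _), ← (hsum _).tsum_add e2]
      congr 1
      funext n
      ring
    simp only [Function.comp, vt, sk, ph]
    refine Prod.ext rfl ?_
    simp only
    have hk' := congrArg (fun y : ℝ => (y : K)) hk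
    simp only [AddCircle.coe_add] at hk'
    calc p.2 + (p.1 + ((F s p.1 : ℝ) : K)) + ((U (p.1 + a) : ℝ) : K)
        = p.2 + p.1 + (((F s p.1 : ℝ) : K) + ((U (p.1 + a) : ℝ) : K)) := by abel
      _ = p.2 + p.1 + (((U p.1 : ℝ) : K) + ((F t p.1 : ℝ) : K)) := by rw [hk']
      _ = _ := by abel

end Pool.Agent.TH724.SE
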