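import Pool.Agent.TH724.SE.Fun

/-!
# The cocycles and their Birkhoff sums
-/

set_option autoImplicit false

open Filter Topology Set
open scoped ContDiff

namespace Pool.Agent.TH724.SE

/-- The cocycle with the parameters `s`. -/
noncomputable def F (s : ℕ → ℝ) (x : K) : ℝ := ∑' n, s n * (C n (x + a) - C n x)

lemma summable_dd (N : ℕ) : Summable (dd N) := by
  have h := ((summable_pow_rat 0).mul_left (2 * Real.pi * N * 2))
  refine Summable.of_nonneg_of_le (fun n => dd_nonneg _ _) (fun n => ?_) h
  refine (dd_le1 N n).trans ?_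
  have h1 := qr_le n
  have h4 := Real.pi_pos
  rw [pow_zero, one_mul]
  calc 2 * Real.pi * (N * (q n * r n)) ≤ 2 * Real.pi * (N * (2 * rat n)) := by gcongr
    _ = _ := by ring

variable {s : ℕ → ℝ}

lemma abs_term (hs : ∀ n, |s n| ≤ 1) (N n : ℕ) (x : K) :
    |s n * (C n (x + N • a) - C n x)| ≤ dd N n := by
  rw [abs_mul]
  have h1 := abs_C_sub N n x
  have h2 := hs n
  have h3 := abs_nonneg (s n)
  have h4 := abs_nonneg (C n (x + N • a) - C n x)
  nlinarith

lemma summable_term (hs : ∀ n, |s n| ≤ 1) (N : ℕ) (x : K) :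
    Summable fun n => s n * (C n (x + N • a) - C n x) :=
  Summable.of_norm_bounded (summable_dd N) fun n => abs_term hs N n x

lemma continuous_F (hs : ∀ n, |s n| ≤ 1) : Continuous (F s) := by
  refine continuous_tsum (u := dd 1) (fun n => ?_) (summable_dd 1) fun n x => ?_
  · exact continuous_const.mul (((continuous_C n).comp (continuous_id.add continuous_const)).sub
      (continuous_C n))
  · have := abs_term hs 1 n x
    rwa [one_smul] at this

/-- The Birkhoff sums. -/
lemma birkhoff (hs : ∀ n, |s n| ≤ 1) (N : ℕ) (x : K) :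
    ∑ i ∈ Finset.range N, F s (x + i • a) = ∑' n, s n * (C n (x + N • a) - C n x) := by
  induction N with
  | zero => simp
  | succ N ih =>
    rw [Finset.sum_range_succ, ih]
    have h1 := summable_term hs 1 (x + N • a)
    rw [one_smul] at h1
    unfold F
    rw [← (summable_term hs N x).tsum_add h1]
    congr 1
    funext n
    rw [succ_nsmul, add_assoc]
    ring

lemma birkhoff_le (hs : ∀ n, |s n| ≤ 1) (N : ℕ) (x : K) :
    |∑ i ∈ Finset.range N, F s (x + i • a)| ≤ ∑' n, dd N n := by
  rw [birkhoff hs]
  have h1 : Summable fun n => ‖s n * (C n (x + N • a) - C n x)‖ :=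
    Summable.of_nonneg_of_le (fun n => norm_nonneg _) (fun n => abs_term hs N n x) (summable_dd N)
  refine (norm_tsum_le_tsum_norm h1).trans ?_
  exact h1.tsum_le_tsum (fun n => abs_term hs N n x) (summable_dd N)

lemma tendsto_dd_q : Tendsto (fun k => ∑' n, dd (q k) n) atTop (𝓝 0) := by
  have h := tendsto_tsum_of_dominated_convergence (𝓕 := atTop) (f := fun k n => dd (q k) n)
    (g := fun _ => (0 : ℝ)) summable_B dd_q_tendsto (Eventually.of_forall fun k n => by
      rw [Real.norm_of_nonneg (dd_nonneg _ _)]
      exact dd_q_le k n)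
  simpa using h

/-- The displacement of the times `Nn k`. -/
noncomputable def dk (k n : ℕ) : ℝ :=
  if n = k then ‖(fourier (q k) (Nn k • a) : ℂ) + 1‖ else dd (Nn k) n

lemma dk_nonneg (k n : ℕ) : 0 ≤ dk k n := by
  unfold dk
  split_ifs
  · exact norm_nonneg _
  · exact dd_nonneg _ _

lemma dk_le (k n : ℕ) : dk k n ≤ B n := by
  unfold dk
  split_ifs with h
  · rw [h]
    exact dh_le k
  · exact dd_N_le h

lemma tendsto_dk : Tendsto (fun k => ∑' n, dk k n) atTop (𝓝 0) := by
  have h := tendsto_tsum_of_dominated_convergence (𝓕 := atTop) (f := fun k n => dk k n)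
    (g := fun _ => (0 : ℝ)) summable_B (fun n => ?_) (Eventually.of_forall fun k n => by
      rw [Real.norm_of_nonneg (dk_nonneg _ _)]
      exact dk_le k n)
  · simpa using h
  · refine (dd_N_tendsto n).congr' ?_
    filter_upwards [eventually_gt_atTop n] with k hk
    unfold dk
    rw [if_neg hk.ne]

lemma birkhoff_half (hs : ∀ n, |s n| ≤ 1) (k : ℕ) (x : K) :
    |∑ i ∈ Finset.range (Nn k), F s (x + i • a) + 2 * (s k * C k x)| ≤ ∑' n, dk k n := by
  rw [birkhoff hs]
  have h0 : ∑' n, (if n = k then 2 * (s n * C n x) else 0) = 2 * (s k * C k x) :=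
    tsum_ite_eq k _
  have h0' : Summable fun n => if n = k then 2 * (s n * C n x) else 0 :=
    summable_of_finite_support ((Set.finite_singleton k).subset fun n hn => by
      by_contra hc
      exact hn (if_neg hc))
  rw [← h0, ← (summable_term hs (Nn k) x).tsum_add h0']
  have h2 : ∀ n, |s n * (C n (x + Nn k • a) - C n x) + (if n = k then 2 * (s n * C n x) else 0)| ≤
      dk k n := by
    intro n
    unfold dk
    split_ifs with h
    · subst h
      have h3 : s n * (C n (x + Nn n • a) - C n x) + 2 * (s n * C n x) =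
          s n * (C n (x + Nn n • a) + C n x) := by ring
      rw [h3, abs_mul]
      have h4 := abs_C_add (Nn n) n x
      have h5 := hs n
      have h6 := abs_nonneg (s n)
      have h7 := abs_nonneg (C n (x + Nn n • a) + C n x)
      nlinarith
    · rw [add_zero]
      exact abs_term hs _ n x
  have hd : Summable (dk k) := Summable.of_nonneg_of_le (dk_nonneg k) (dk_le k) summable_B
  have h1 : Summable fun n => ‖s n * (C n (x + Nn k • a) - C n x) +
      (if n = k then 2 * (s n * C n x) else 0)‖ :=
    Summable.of_nonneg_of_le (fun n => norm_nonneg _) h2 hd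
  refine (norm_tsum_le_tsum_norm h1).trans ?_
  exact h1.tsum_le_tsum h2 hd

/-! ### Smoothness -/

lemma deriv_sin_lin (w p : ℝ) :
    deriv (fun t => Real.sin (w * t + p)) = fun t => w * Real.sin (w * t + (p + Real.pi / 2)) := by
  funext t
  have h1 : HasDerivAt (fun t => w * t + p) w t := by
    simpa using ((hasDerivAt_id t).const_mul w).add_const p
  have h2 := h1.sin
  rw [h2.deriv, ← add_assoc, Real.sin_add_pi_div_two, mul_comm]

lemma iter_sin (w : ℝ) (k : ℕ) : ∀ p t : ℝ,
    |iteratedDeriv k (fun t => Real.sin (w * t + p)) t| ≤ |w| ^ k := by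
  induction k with
  | zero =>
    intro p t
    rw [iteratedDeriv_zero, pow_zero]
    exact Real.abs_sin_le_one _
  | succ k ih =>
    intro p t
    rw [iteratedDeriv_succ', deriv_sin_lin, iteratedDeriv_const_mul_field, abs_mul, pow_succ']
    exact mul_le_mul_of_nonneg_left (ih _ t) (abs_nonneg w)

lemma term_eq (s : ℕ → ℝ) (n : ℕ) (t : ℝ) :
    s n * (C n ((t : K) + a) - C n (t : K)) =
      (-2 * s n * Real.sin (Real.pi * (q n * r n))) *
        Real.sin (2 * Real.pi * q n * t + Real.pi * (q n * r n)) := by
  have h1 : C n (t : K) = Real.cos (2 * Real.pi * q n * t) := by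
    unfold C
    rw [fourier_coe]
    rw [mul_comm Complex.I, Complex.exp_ofReal_mul_I_re]
    congr 1
    push_cast
    ring
  have h2 : C n ((t : K) + a) = Real.cos (2 * Real.pi * q n * t + 2 * Real.pi * (q n * r n)) := by
    unfold C
    have h3 : (fourier (q n) a : ℂ) = fourier 1 ((q n * r n : ℝ) : K) := by
      rw [fourier_eq_one, natCast_zsmul, q_smul_a]
    rw [fourier_add_pt, h3, fourier_coe, fourier_coe, ← Complex.exp_add, ← mul_add,
      ← Complex.ofReal_add, mul_comm Complex.I, Complex.exp_ofReal_mul_I_re]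
    congr 1
    push_cast
    ring
  rw [h1, h2, Real.cos_sub_cos]
  have e1 : (2 * Real.pi * q n * t + 2 * Real.pi * (q n * r n) + 2 * Real.pi * q n * t) / 2 =
      2 * Real.pi * q n * t + Real.pi * (q n * r n) := by ring
  have e2 : (2 * Real.pi * q n * t + 2 * Real.pi * (q n * r n) - 2 * Real.pi * q n * t) / 2 =
      Real.pi * (q n * r n) := by ring
  rw [e1, e2]
  ring

lemma contDiff_F (hs : ∀ n, |s n| ≤ 1) : ContDiff ℝ ∞ fun t : ℝ => F s (t : K) := by
  have h0 : (fun t : ℝ => F s (t : K)) = fun t => ∑' n, (-2 * s n *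
      Real.sin (Real.pi * (q n * r n))) *
        Real.sin (2 * Real.pi * q n * t + Real.pi * (q n * r n)) := by
    funext t
    unfold F
    congr 1
    funext n
    exact term_eq s n t
  rw [h0]
  refine contDiff_tsum (v := fun k n => 4 * Real.pi * (2 * Real.pi) ^ k * ((q n : ℝ) ^ k * rat n))
    (fun n => ?_) (fun k _ => (summable_pow_rat k).mul_left _) fun k n t _ => ?_
  · exact contDiff_const.mul (Real.contDiff_sin.comp
      ((contDiff_const.mul contDiff_id).add contDiff_const))
  · rw [norm_iteratedFDeriv_eq_norm_iteratedDeriv, iteratedDeriv_const_mul_field, norm_mul]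
    have h1 := iter_sin (2 * Real.pi * q n) k (Real.pi * (q n * r n)) t
    have h2 : |(-2 * s n * Real.sin (Real.pi * (q n * r n)))| ≤ 4 * Real.pi * rat n := by
      rw [abs_mul, abs_mul]
      have h3 : |Real.sin (Real.pi * (q n * r n))| ≤ Real.pi * (2 * rat n) := by
        refine Real.abs_sin_le_abs.trans ?_
        have := qr_le n
        have h4 := r_pos n
        have h5 := Real.pi_pos
        rw [abs_of_nonneg (by positivity)]
        gcongr
      have h4 := hs n
      have h5 : |(-2 : ℝ)| = 2 := by norm_num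
      rw [h5]
      have h6 := abs_nonneg (s n)
      have h7 := abs_nonneg (Real.sin (Real.pi * (q n * r n)))
      have h8 : |s n| * |Real.sin (Real.pi * (q n * r n))| ≤ 1 * (Real.pi * (2 * rat n)) :=
        mul_le_mul h4 h3 h7 zero_le_one
      linarith
    have h3 : |2 * Real.pi * (q n : ℝ)| = 2 * Real.pi * q n := abs_of_nonneg (by positivity)
    rw [h3, mul_pow] at h1
    calc _ ≤ (4 * Real.pi * rat n) * ((2 * Real.pi) ^ k * (q n : ℝ) ^ k) :=
          mul_le_mul h2 h1 (abs_nonneg _) (by have := rat_pos n; positivity)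
      _ = _ := by ring

end Pool.Agent.TH724.SE
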