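import Pool.Agent.TH724.SE.Tor

set_option autoImplicit false

open Set Topology MeasureTheory Filter
open scoped Manifold ContDiff

namespace Pool.Agent.TH724.SE

lemma mp_L : MeasurePreserving L volume volume := by
  have h1 := EuclideanSpace.volume_preserving_symm_measurableEquiv_toLp (Fin 2)
  have h2 := volume_preserving_finTwoArrow ℝ
  exact h2.comp h1

lemma mp_cov (a : ℝ × ℝ) :
    MeasurePreserving cov (volume.restrict (ch a).target) (volume.restrict (ch a).source) := by
  have h1 := (UnitAddCircle.measurePreserving_mk a.1).prod (UnitAddCircle.measurePreserving_mk a.2)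
  rw [Measure.prod_restrict] at h1
  have h2 := h1.restrict_preimage (s := (ch a).source) (ch a).open_source.measurableSet
  rw [Measure.restrict_restrict (h1.measurable (ch a).open_source.measurableSet)] at h2
  have h3 : Prod.map (fun t : ℝ => (t : K)) (fun t : ℝ => (t : K)) ⁻¹' (ch a).source ∩
      Ioc a.1 (a.1 + 1) ×ˢ Ioc a.2 (a.2 + 1) = Ioo a.1 (a.1 + 1) ×ˢ Ioo a.2 (a.2 + 1) := by
    have key : ∀ b t : ℝ, ((t : K) ≠ (b : K) ∧ t ∈ Ioc b (b + 1)) ↔ t ∈ Ioo b (b + 1) := by
      intro b t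
      constructor
      · rintro ⟨h, h1, h2⟩
        refine ⟨h1, lt_of_le_of_ne h2 ?_⟩
        rintro rfl
        apply h
        rw [AddCircle.coe_add, AddCircle.coe_period, add_zero]
      · rintro ⟨h1, h2⟩
        refine ⟨fun h => ?_, h1, h2.le⟩
        obtain ⟨n, hn⟩ := exists_int h
        have h3 : (0 : ℝ) < n := by rw [← hn]; linarith
        have h4 : (n : ℝ) < 1 := by rw [← hn]; linarith
        have h5 : 0 < n := by exact_mod_cast h3
        have h6 : n < 1 := by exact_mod_cast h4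
        omega
    ext ⟨s, t⟩
    rw [ch_source]
    have k1 := key a.1 s
    have k2 := key a.2 t
    constructor
    · rintro ⟨⟨h1, h2⟩, h3, h4⟩
      exact ⟨k1.1 ⟨h1, h3⟩, k2.1 ⟨h2, h4⟩⟩
    · rintro ⟨h1, h2⟩
      exact ⟨⟨(k1.2 h1).1, (k2.2 h2).1⟩, (k1.2 h1).2, (k2.2 h2).2⟩
  have h4 : MeasurePreserving (Prod.map (fun t : ℝ => (t : K)) (fun t : ℝ => (t : K)))
      ((volume.prod volume).restrict (Ioo a.1 (a.1 + 1) ×ˢ Ioo a.2 (a.2 + 1)))
      ((volume.prod volume).restrict (ch a).source) := by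
    rw [← h3]
    exact h2
  have h5 := mp_L.restrict_preimage (s := Ioo a.1 (a.1 + 1) ×ˢ Ioo a.2 (a.2 + 1))
    (measurableSet_Ioo.prod measurableSet_Ioo)
  have h6 : L ⁻¹' (Ioo a.1 (a.1 + 1) ×ˢ Ioo a.2 (a.2 + 1)) = (ch a).target := by
    rw [ch_target]
    rfl
  rw [h6] at h5
  exact h4.comp h5

/-- In the charts, the volume of the torus is the volume of the plane. -/
lemma volume_chart (a : ℝ × ℝ) :
    Measure.map (ch a) ((volume : Measure Tor).restrict (ch a).source) =
      (volume.withDensity (fun _ : E2 => ENNReal.ofReal 1)).restrict (ch a).target := by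
  have h0 := (mp_cov a).map_eq
  have hae : AEMeasurable (ch a) (volume.restrict (ch a).source) :=
    (ch a).continuousOn.aemeasurable (ch a).open_source.measurableSet
  rw [← h0, AEMeasurable.map_map_of_aemeasurable (by rw [h0]; exact hae)
    continuous_cov.measurable.aemeasurable]
  have h1 : (ch a ∘ cov) =ᵐ[volume.restrict (ch a).target] id := by
    filter_upwards [ae_restrict_mem (ch a).open_target.measurableSet] with v hv
    exact (ch a).right_inv hv
  rw [Measure.map_congr h1, Measure.map_id]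
  simp

lemma contMDiff_cov : ContMDiff (𝓡 2) (𝓡 2) ∞ cov := by
  intro v
  let a : ℝ × ℝ := ((L v).1 - 1 / 2, (L v).2 - 1 / 2)
  have hv : v ∈ (ch a).target := by
    rw [ch_target]
    refine ⟨⟨?_, ?_⟩, ?_, ?_⟩ <;> simp only [a] <;> linarith
  have h1 : ch a ∈ IsManifold.maximalAtlas (𝓡 2) ∞ Tor :=
    IsManifold.subset_maximalAtlas (mem_range_self a)
  have h2 := contMDiffOn_symm_of_mem_maximalAtlas h1
  exact (h2 v hv).contMDiffAt ((ch a).open_target.mem_nhds hv)

/-- A map of the torus with a smooth lift is smooth. -/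
lemma contMDiff_of_lift {F : Tor → Tor} {G : E2 → E2} (hG : ContDiff ℝ ∞ G)
    (h : ∀ v, F (cov v) = cov (G v)) : ContMDiff (𝓡 2) (𝓡 2) ∞ F := by
  intro p
  have h1 := contMDiffOn_chart (I := 𝓡 2) (n := ∞) (H := E2) (x := p)
  have h2 : ContMDiffAt (𝓡 2) (𝓡 2) ∞ (chartAt E2 p) p :=
    (h1 p (mem_chart_source E2 p)).contMDiffAt
      ((chartAt E2 p).open_source.mem_nhds (mem_chart_source E2 p))
  have h3 : ContMDiffAt (𝓡 2) (𝓡 2) ∞ (fun q => cov (G (chartAt E2 p q))) p :=
    (contMDiff_cov.contMDiffAt.comp _ hG.contMDiff.contMDiffAt).comp p h2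
  refine h3.congr_of_eventuallyEq ?_
  filter_upwards [(chartAt E2 p).open_source.mem_nhds (mem_chart_source E2 p)] with q hq
  rw [← h]
  congr 1
  exact ((chartAt E2 p).left_inv hq).symm

end Pool.Agent.TH724.SE
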