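import Pool.Agent.TH724.SE.Cob
import Pool.Agent.TH724.SE.Tor2

/-!
# The diffeomorphisms
-/

set_option autoImplicit false

open Filter Topology Set MeasureTheory
open scoped ContDiff Manifold

namespace Pool.Agent.TH724.SE

instance instProbK : IsProbabilityMeasure (volume : Measure K) :=
  ⟨by simp⟩

/-- The skew product over the rotation. -/
noncomputable def sk (φ : K → K) (p : Tor) : Tor := (p.1 + a, p.2 + φ p.1)

/-- Its inverse. -/
noncomputable def skInv (φ : K → K) (p : Tor) : Tor := (p.1 - a, p.2 - φ (p.1 - a))

/-- The skew product as a bijection. -/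
noncomputable def skEquiv (φ : K → K) : Tor ≃ Tor where
  toFun := sk φ
  invFun := skInv φ
  left_inv p := by simp [sk, skInv]
  right_inv p := by simp [sk, skInv]

lemma mp_sk {φ : K → K} (hφ : Measurable φ) : MeasurePreserving (sk φ) volume volume := by
  have h1 : MeasurePreserving (fun x : K => x + a) volume volume :=
    measurePreserving_add_right volume a
  have hg : Measurable (Function.uncurry fun x y : K => y + φ x) :=
    measurable_snd.add (hφ.comp measurable_fst)
  exact h1.skew_product hg (Eventually.of_forall fun x =>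
    (measurePreserving_add_right volume (φ x)).map_eq)

variable {s : ℕ → ℝ}

/-- The fibre cocycle. -/
noncomputable def ph (s : ℕ → ℝ) (x : K) : K := x + ((F s x : ℝ) : K)

lemma continuous_ph (hs : ∀ n, |s n| ≤ 1) : Continuous (ph s) :=
  continuous_id.add ((AddCircle.continuous_mk' 1).comp (continuous_F hs))

lemma contDiff_fst_L : ContDiff ℝ ∞ fun v : E2 => (L v).1 := contDiff_fst.comp L.contDiff

lemma contDiff_snd_L : ContDiff ℝ ∞ fun v : E2 => (L v).2 := contDiff_snd.comp L.contDiff

lemma cov_L_symm (p : ℝ × ℝ) : cov (L.symm p) = ((p.1 : K), (p.2 : K)) := by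
  unfold cov
  rw [L.apply_symm_apply]

/-- The diffeomorphism with the parameters `s`. -/
noncomputable def T (s : ℕ → ℝ) (hs : ∀ n, |s n| ≤ 1) : Diffeomorph (𝓡 2) (𝓡 2) Tor Tor ∞ where
  toEquiv := skEquiv (ph s)
  contMDiff_toFun := by
    refine contMDiff_of_lift (G := fun v =>
      L.symm ((L v).1 + al, (L v).2 + ((L v).1 + F s ((L v).1 : K)))) ?_ fun v => ?_
    · refine L.symm.contDiff.comp (ContDiff.prodMk ?_ ?_)
      · exact contDiff_fst_L.add contDiff_const
      · exact contDiff_snd_L.add (contDiff_fst_L.add ((contDiff_F hs).comp contDiff_fst_L))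
    · rw [cov_L_symm]
      simp only [AddCircle.coe_add]
      rfl
  contMDiff_invFun := by
    refine contMDiff_of_lift (G := fun v =>
      L.symm ((L v).1 - al, (L v).2 - (((L v).1 - al) + F s (((L v).1 - al : ℝ) : K)))) ?_
        fun v => ?_
    · refine L.symm.contDiff.comp (ContDiff.prodMk ?_ ?_)
      · exact contDiff_fst_L.sub contDiff_const
      · exact contDiff_snd_L.sub ((contDiff_fst_L.sub contDiff_const).add
          ((contDiff_F hs).comp (contDiff_fst_L.sub contDiff_const)))
    · rw [cov_L_symm]
      simp only [AddCircle.coe_sub, AddCircle.coe_add]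
      rfl

lemma T_apply (hs : ∀ n, |s n| ≤ 1) (p : Tor) : T s hs p = sk (ph s) p := rfl

end Pool.Agent.TH724.SE
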