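import Pool.Agent.TH724.SE.Low

/-!
# Fibre Fourier coefficients, ergodicity and rigidity of isomorphisms
-/

set_option autoImplicit false

open Filter Topology Set MeasureTheory

namespace Pool.Agent.TH724.SE

lemma haar_eq : (AddCircle.haarAddCircle : Measure K) = volume := by
  rw [AddCircle.volume_eq_smul_haarAddCircle]
  simp

lemma addOrderOf_a : addOrderOf a = 0 := by
  rw [addOrderOf_eq_zero_iff']
  intro n hn h
  unfold a at h
  rw [nsmul_coe, AddCircle.coe_eq_zero_iff] at h
  obtain ⟨m, hm⟩ := h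
  have hirr : Irrational al := by
    have := (liouville_liouvilleNumber (m := 2) le_rfl).irrational
    exact_mod_cast this
  apply hirr
  refine ⟨m / n, ?_⟩
  have hn' : (n : ℝ) ≠ 0 := by exact_mod_cast hn.ne'
  push_cast
  rw [div_eq_iff hn', mul_comm al, ← hm]
  simp

lemma ergodic_rot : Ergodic (fun x : K => x + a) volume :=
  AddCircle.ergodic_add_right.2 addOrderOf_a

/-- The fibre Fourier coefficients. -/
noncomputable def fc (G : Tor → ℂ) (k : ℤ) (x : K) : ℂ := ∫ y, G (x, y) * fourier (-k) y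

lemma measurable_fc {G : Tor → ℂ} (hG : Measurable G) (k : ℤ) : Measurable (fc G k) := by
  have h : StronglyMeasurable fun p : K × K => G p * fourier (-k) p.2 :=
    (hG.mul ((fourier (-k)).continuous.measurable.comp measurable_snd)).stronglyMeasurable
  exact h.integral_prod_right'.measurable

lemma fc_congr {G G' : Tor → ℂ} (h : ∀ᵐ p, G p = G' p) (k : ℤ) :
    ∀ᵐ x, fc G k x = fc G' k x := by
  filter_upwards [Measure.ae_ae_of_ae_prod (μ := (volume : Measure K))
    (ν := (volume : Measure K)) h] with x hx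
  unfold fc
  refine integral_congr_ae ?_
  filter_upwards [hx] with y hy
  rw [hy]

lemma fc_sk (G : Tor → ℂ) (φ : K → K) (k : ℤ) (x : K) :
    fc (fun p => G (sk φ p)) k x = fourier k (φ x) * fc G k (x + a) := by
  unfold fc sk
  have h1 : ∀ y : K, G (x + a, y + φ x) * fourier (-k) y =
      (fun z => G (x + a, z) * (fourier (-k) z * fourier k (φ x))) (y + φ x) := by
    intro y
    simp only
    rw [fourier_add_pt]
    have h2 : (fourier (-k) (φ x) : ℂ) * fourier k (φ x) = 1 := by
      rw [← fourier_add, neg_add_cancel, fourier_zero]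
    linear_combination (-G (x + a, y + φ x) * fourier (-k) y) * h2
  simp only [h1]
  rw [integral_add_right_eq_self (fun z => G (x + a, z) * (fourier (-k) z * fourier k (φ x)))]
  simp only [← mul_assoc]
  rw [integral_mul_const, mul_comm]

lemma fc_mul (G : Tor → ℂ) (W : K → ℂ) (k : ℤ) (x : K) :
    fc (fun p => G p * W p.1) k x = W x * fc G k x := by
  unfold fc
  rw [← integral_const_mul]
  congr 1
  funext y
  ring

lemma fc_zero {G : Tor → ℂ} (hG : Measurable G) {R : ℝ} (hR : ∀ p, ‖G p‖ ≤ R)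
    (h : ∀ k : ℤ, ∀ᵐ x, fc G k x = 0) : ∀ᵐ p, G p = 0 := by
  have hms : MeasurableSet {p : Tor | G p = 0} := hG (measurableSet_singleton 0)
  refine (Measure.ae_prod_iff_ae_ae (μ := (volume : Measure K))
    (ν := (volume : Measure K)) hms).2 ?_
  filter_upwards [ae_all_iff.2 h] with x hx
  rw [← haar_eq]
  have hm : Measurable fun y : K => G (x, y) := hG.comp measurable_prodMk_left
  have hL : MemLp (fun y : K => G (x, y)) 2 (AddCircle.haarAddCircle : Measure K) :=
    MemLp.of_bound hm.aestronglyMeasurable R (Eventually.of_forall fun y => hR _)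
  have h0 : hL.toLp = 0 := by
    apply fourierBasis.repr.injective
    rw [map_zero]
    ext k
    rw [fourierBasis_repr]
    have h1 : fourierCoeff (hL.toLp : K → ℂ) k = fourierCoeff (fun y : K => G (x, y)) k := by
      unfold fourierCoeff
      refine integral_congr_ae ?_
      filter_upwards [hL.coeFn_toLp] with y hy
      rw [hy]
    rw [h1]
    have h2 := hx k
    unfold fc at h2
    rw [← haar_eq] at h2
    unfold fourierCoeff
    simp only [smul_eq_mul]
    have h3 : (∫ y : K, (fourier (-k) y : ℂ) * G (x, y) ∂AddCircle.haarAddCircle) =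
        ∫ y : K, G (x, y) * fourier (-k) y ∂AddCircle.haarAddCircle := by
      congr 1
      funext y
      ring
    rw [h3, h2]
    rfl
  have h1 := hL.coeFn_toLp
  rw [h0] at h1
  filter_upwards [h1, Lp.coeFn_zero ℂ 2 (AddCircle.haarAddCircle : Measure K)] with y hy hz
  rw [← hy, hz]
  rfl

/-- A function whose modulus is invariant under the rotation has constant modulus. -/
lemma norm_const {g : K → ℂ} (hg : Measurable g) (h : ∀ᵐ x, ‖g (x + a)‖ = ‖g x‖) :
    ∃ r : ℝ, 0 ≤ r ∧ ∀ᵐ x, ‖g x‖ = r := by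
  obtain ⟨c, hc⟩ := ergodic_rot.ae_eq_const_of_ae_eq_comp_ae
    (g := fun x => ‖g x‖) hg.norm.aestronglyMeasurable h
  have hc' : ∀ᵐ x, ‖g x‖ = c := hc
  refine ⟨c, ?_, hc'⟩
  obtain ⟨x, hx⟩ := hc'.exists
  rw [← hx]
  exact norm_nonneg _

/-- The key lemma. -/
lemma key {G : Tor → ℂ} (hG : Measurable G) {φ : K → K} {W : K → ℂ} (hW : ∀ x, ‖W x‖ = 1)
    (h : ∀ᵐ p, G (sk φ p) = G p * W p.1) (k : ℤ) (hk : ¬ ∀ᵐ x, fc G k x = 0) :
    ∃ u : K → ℂ, Measurable u ∧ (∀ᵐ x, ‖u x‖ = 1) ∧
      ∀ᵐ x, u (x + a) = u x * (W x * fourier (-k) (φ x)) := by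
  have h1 : ∀ᵐ x, fc G k (x + a) = fc G k x * (W x * fourier (-k) (φ x)) := by
    filter_upwards [fc_congr h k] with x hx
    rw [fc_sk, fc_mul] at hx
    have h2 : (fourier (-k) (φ x) : ℂ) * fourier k (φ x) = 1 := by
      rw [← fourier_add, neg_add_cancel, fourier_zero]
    linear_combination (fourier (-k) (φ x) : ℂ) * hx - fc G k (x + a) * h2
  have h2 : ∀ᵐ x, ‖fc G k (x + a)‖ = ‖fc G k x‖ := by
    filter_upwards [h1] with x hx
    rw [hx, norm_mul, norm_mul, hW, norm_fourier, one_mul, mul_one]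
  obtain ⟨r, hr0, hr⟩ := norm_const (measurable_fc hG k) h2
  have hr1 : r ≠ 0 := by
    rintro rfl
    apply hk
    filter_upwards [hr] with x hx
    exact norm_eq_zero.1 hx
  refine ⟨fun x => fc G k x / r, (measurable_fc hG k).div_const _, ?_, ?_⟩
  · filter_upwards [hr] with x hx
    rw [norm_div, hx, Complex.norm_real, Real.norm_of_nonneg hr0, div_self hr1]
  · filter_upwards [h1] with x hx
    rw [hx]
    ring

lemma fourier_ph (k : ℤ) (s : ℕ → ℝ) (x : K) :
    (fourier (-k) (ph s x) : ℂ) = fourier 1 ((-k) • x + 0 + ((-k * F s x : ℝ) : K)) := by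
  rw [fourier_eq_one]
  congr 1
  unfold ph
  rw [smul_add, add_zero, zsmul_coe]
  push_cast
  rfl

theorem ergodic_sk {s : ℕ → ℝ} (hs : ∀ n, |s n| ≤ 1) : Ergodic (sk (ph s)) volume := by
  refine ⟨mp_sk (continuous_ph hs).measurable, ⟨fun A hA hinv => ?_⟩⟩
  classical
  let G : Tor → ℂ := A.indicator 1
  have hG : Measurable G := measurable_one.indicator hA
  have hGb : ∀ p, ‖G p‖ ≤ 1 := by
    intro p
    simp only [G, Set.indicator_apply]
    split_ifs <;> simp
  have hGi : ∀ p, G (sk (ph s) p) = G p := by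
    intro p
    have h1 : sk (ph s) p ∈ A ↔ p ∈ A := by
      conv_rhs => rw [← hinv]
      rfl
    simp only [G, Set.indicator_apply, h1, Pi.one_apply]
  have h0 : ∀ k : ℤ, k ≠ 0 → ∀ᵐ x, fc G k x = 0 := by
    intro k hk
    by_contra hc
    obtain ⟨u, hu1, hu2, hu3⟩ := key hG (W := fun _ => 1) (fun _ => norm_one)
      (Eventually.of_forall fun p => by rw [hGi, mul_one]) k hc
    refine noCob hu1 hu2 (l := -k) (neg_ne_zero.2 hk) (c := 0) (G := fun x => -k * F s x)
      (continuous_const.mul (continuous_F hs)) (E := fun j => |(k : ℝ)| * ∑' n, dd (q j) n) ?_ ?_ ?_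
    · simpa using tendsto_dd_q.const_mul |(k : ℝ)|
    · intro j x
      rw [← Finset.mul_sum, abs_mul, abs_neg]
      exact mul_le_mul_of_nonneg_left (birkhoff_le hs _ x) (abs_nonneg _)
    · filter_upwards [hu3] with x hx
      rw [hx, one_mul, fourier_ph]
  have h1 : ∃ c : ℂ, ∀ᵐ x, fc G 0 x = c := by
    have h2 : ∀ᵐ x, fc G 0 (x + a) = fc G 0 x := by
      refine Eventually.of_forall fun x => ?_
      have h3 := fc_sk G (ph s) 0 x
      simp only [hGi] at h3
      rw [h3, fourier_zero, one_mul]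
    obtain ⟨c, hc⟩ := ergodic_rot.ae_eq_const_of_ae_eq_comp_ae
      (g := fc G 0) (measurable_fc hG 0).aestronglyMeasurable h2
    exact ⟨c, hc⟩
  obtain ⟨c, hc⟩ := h1
  have h2 : ∀ᵐ p : Tor, G p - c = 0 := by
    refine fc_zero (G := fun p => G p - c) (hG.sub_const c) (R := 1 + ‖c‖) (fun p => ?_) fun k => ?_
    · exact (norm_sub_le _ _).trans (by linarith [hGb p])
    · have h3 : ∀ x, fc (fun p => G p - c) k x = fc G k x - c * ∫ y : K, (fourier (-k) y : ℂ) := by
        intro x
        unfold fc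
        rw [← integral_const_mul, ← integral_sub]
        · congr 1
          funext y
          ring
        · refine Integrable.of_bound (C := 1) ?_ (Eventually.of_forall fun y => ?_)
          · exact ((hG.comp measurable_prodMk_left).mul
              (fourier (-k)).continuous.measurable).aestronglyMeasurable
          · rw [norm_mul, norm_fourier, mul_one]
            exact hGb _
        · exact (integrable_of_cont (fourier (-k)).continuous).const_mul c
      by_cases hk : k = 0
      · subst hk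
        filter_upwards [hc] with x hx
        rw [h3, hx]
        simp
      · filter_upwards [h0 k hk] with x hx
        rw [h3, hx, integral_fourier (neg_ne_zero.2 hk)]
        simp
  rw [eventuallyConst_set]
  by_cases hc1 : c = 1
  · left
    filter_upwards [h2] with p hp
    by_contra hn
    have : G p = 0 := Set.indicator_of_notMem hn _
    rw [this, hc1] at hp
    norm_num at hp
  · right
    filter_upwards [h2] with p hp hn
    have h4 : G p = 1 := by
      simp only [G]
      rw [Set.indicator_of_mem hn]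
      rfl
    apply hc1
    rw [h4] at hp
    exact (sub_eq_zero.1 hp).symm

lemma surj_fourier {z : ℂ} (hz : ‖z‖ = 1) : ∃ c : K, (fourier 1 c : ℂ) = z := by
  let w : Circle := ⟨z, by simpa [Submonoid.unitSphere] using hz⟩
  refine ⟨(AddCircle.homeomorphCircle (T := 1) one_ne_zero).symm w, ?_⟩
  rw [fourier_one, ← AddCircle.homeomorphCircle_apply one_ne_zero, Homeomorph.apply_symm_apply]

lemma inj_fourier {x y : K} (h : (fourier 1 x : ℂ) = fourier 1 y) : x = y := by
  rw [fourier_one, fourier_one] at h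
  exact AddCircle.injective_toCircle one_ne_zero (Circle.ext h)

/-- Isomorphic skew products have cohomologous cocycles. -/
theorem iso_cob {s t : ℕ → ℝ} (hs : ∀ n, |s n| ≤ 1) {Φ : Tor → Tor}
    (hΦ : MeasurePreserving Φ volume volume)
    (h : ∀ᵐ p, Φ (sk (ph s) p) = sk (ph t) (Φ p)) :
    ∃ (c : K) (k : ℤ) (u : K → ℂ), Measurable u ∧ (∀ᵐ x, ‖u x‖ = 1) ∧
      ∀ᵐ x, u (x + a) = u x * fourier 1 ((1 - k) • x + c +
        ((F t (x + c) - k * F s x : ℝ) : K)) := by
  -- the first coordinate
  have hΦm := hΦ.measurable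
  let H : Tor → ℂ := fun p => fourier 1 (Φ p).1 * fourier (-1) p.1
  have hH : Measurable H := ((fourier 1).continuous.measurable.comp (measurable_fst.comp hΦm)).mul
    ((fourier (-1)).continuous.measurable.comp measurable_fst)
  have hHi : H ∘ (sk (ph s)) =ᵐ[volume] H := by
    filter_upwards [h] with p hp
    simp only [H, Function.comp]
    rw [hp]
    simp only [sk]
    rw [fourier_add_pt, fourier_add_pt]
    have h2 : (fourier 1 a : ℂ) * fourier (-1) a = 1 := by
      rw [← fourier_add, add_neg_cancel, fourier_zero]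
    linear_combination (fourier 1 (Φ p).1 * fourier (-1) p.1 : ℂ) * h2
  obtain ⟨z, hz⟩ := (ergodic_sk hs).ae_eq_const_of_ae_eq_comp_ae hH.aestronglyMeasurable hHi
  have hz' : ∀ᵐ p, H p = z := hz
  have hz1 : ‖z‖ = 1 := by
    obtain ⟨p, hp⟩ := hz'.exists
    rw [← hp]
    simp only [H]
    rw [norm_mul, norm_fourier, norm_fourier, one_mul]
  obtain ⟨c, hc⟩ := surj_fourier hz1
  have h1 : ∀ᵐ p, (Φ p).1 = p.1 + c := by
    filter_upwards [hz'] with p hp
    apply inj_fourier
    rw [fourier_add_pt, hc, ← hp]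
    simp only [H]
    have h2 : (fourier 1 p.1 : ℂ) * fourier (-1) p.1 = 1 := by
      rw [← fourier_add, add_neg_cancel, fourier_zero]
    linear_combination (-fourier 1 (Φ p).1 : ℂ) * h2
  -- the second coordinate
  let G : Tor → ℂ := fun p => fourier 1 (Φ p).2
  have hG : Measurable G := (fourier 1).continuous.measurable.comp (measurable_snd.comp hΦm)
  let W : K → ℂ := fun x => fourier 1 (x + c + ((F t (x + c) : ℝ) : K))
  have hGW : ∀ᵐ p, G (sk (ph s) p) = G p * W p.1 := by
    filter_upwards [h, h1] with p hp hp1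
    simp only [G, W]
    rw [hp]
    simp only [sk, ph]
    rw [fourier_add_pt, hp1]
  have hex : ∃ k : ℤ, ¬ ∀ᵐ x, fc G k x = 0 := by
    by_contra hcon
    push Not at hcon
    obtain ⟨p, hp⟩ := (fc_zero hG (R := 1) (fun p => (norm_fourier _ _).le) hcon).exists
    have := norm_fourier 1 (Φ p).2
    simp only [G] at hp
    rw [hp, norm_zero] at this
    norm_num at this
  obtain ⟨k, hk⟩ := hex
  obtain ⟨u, hu1, hu2, hu3⟩ := key hG (W := W) (fun x => norm_fourier _ _) hGW k hk
  refine ⟨c, k, u, hu1, hu2, ?_⟩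
  filter_upwards [hu3] with x hx
  rw [hx, fourier_ph]
  simp only [W]
  rw [← fourier_add_pt]
  congr 2
  rw [AddCircle.coe_sub, neg_mul, AddCircle.coe_neg, sub_smul, neg_smul, one_smul]
  abel

/-- Skew products with distant parameters are not isomorphic. -/
theorem not_iso {s t : ℕ → ℝ}
    (hs : ∀ n, 0 ≤ s n) (hs' : ∀ n, s n ≤ 1 / 50) (ht : ∀ n, 0 ≤ t n) (ht' : ∀ n, t n ≤ 1 / 50)
    {δ : ℝ} (hδ : 0 < δ) (hfar : ∃ᶠ k in atTop, δ ≤ |s k - t k|) {Φ : Tor → Tor}
    (hΦ : MeasurePreserving Φ volume volume)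
    (h : ∀ᵐ p, Φ (sk (ph s) p) = sk (ph t) (Φ p)) : False := by
  have as : ∀ n, |s n| ≤ 1 := fun n => by
    rw [abs_of_nonneg (hs n)]; linarith [hs' n]
  have at' : ∀ n, |t n| ≤ 1 := fun n => by
    rw [abs_of_nonneg (ht n)]; linarith [ht' n]
  obtain ⟨c, k, u, hu1, hu2, hu3⟩ := iso_cob as hΦ h
  by_cases hk : k = 1
  · subst hk
    refine far hu1 hu2 hs hs' ht ht' (c := c) (d := c) hδ hfar ?_
    filter_upwards [hu3] with x hx
    rw [hx]
    simp
  · refine noCob hu1 hu2 (l := 1 - k) (by omega) (c := c) (G := fun x => F t (x + c) - k * F s x)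
      (((continuous_F at').comp (continuous_id.add continuous_const)).sub
        (continuous_const.mul (continuous_F as)))
      (E := fun j => (1 + |(k : ℝ)|) * ∑' n, dd (q j) n) ?_ ?_ hu3
    · simpa using tendsto_dd_q.const_mul (1 + |(k : ℝ)|)
    · intro j x
      rw [Finset.sum_sub_distrib, ← Finset.mul_sum]
      have b1 := birkhoff_le at' (q j) (x + c)
      have b2 := birkhoff_le as (q j) x
      have b3 : ∑ i ∈ Finset.range (q j), F t (x + c + i • a) =
          ∑ i ∈ Finset.range (q j), F t (x + i • a + c) :=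
        Finset.sum_congr rfl fun i _ => by rw [add_right_comm]
      rw [b3] at b1
      refine (abs_sub _ _).trans ?_
      rw [abs_mul, add_mul, one_mul]
      exact add_le_add b1 (mul_le_mul_of_nonneg_left b2 (abs_nonneg _))

end Pool.Agent.TH724.SE
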