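import Mathlib

/-!
# The two-dimensional torus as a smooth manifold with its volume

The charts are the local inverses of the covering map from the plane.
-/

set_option autoImplicit false

open Set Topology MeasureTheory Filter
open scoped Manifold ContDiff

namespace Pool.Agent.TH724.SE

/-- The circle. -/
abbrev K : Type := AddCircle (1 : ℝ)

/-- The plane. -/
abbrev E2 : Type := EuclideanSpace ℝ (Fin 2)

/-- The torus. -/
abbrev Tor : Type := K × K

/-- Coordinates. -/
noncomputable def L : E2 ≃L[ℝ] ℝ × ℝ :=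
  (EuclideanSpace.equiv (Fin 2) ℝ).trans (ContinuousLinearEquiv.finTwoArrow ℝ ℝ)

/-- The covering map. -/
noncomputable def cov (v : E2) : Tor := (((L v).1 : ℝ), ((L v).2 : ℝ))

lemma continuous_cov : Continuous cov :=
  ((AddCircle.continuous_mk' 1).comp (continuous_fst.comp L.continuous)).prodMk
    ((AddCircle.continuous_mk' 1).comp (continuous_snd.comp L.continuous))

/-- The chart with target the unit square with corner `a`. -/
noncomputable def ch (a : ℝ × ℝ) : OpenPartialHomeomorph Tor E2 :=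
  ((AddCircle.openPartialHomeomorphCoe 1 a.1).prod
    (AddCircle.openPartialHomeomorphCoe 1 a.2)).symm ≫ₕ
      L.symm.toHomeomorph.toOpenPartialHomeomorph

lemma ch_symm_apply (a : ℝ × ℝ) (v : E2) : (ch a).symm v = cov v := rfl

lemma ch_source (a : ℝ × ℝ) : (ch a).source = {p | p.1 ≠ (a.1 : K) ∧ p.2 ≠ (a.2 : K)} := by
  ext p
  simp [ch]

lemma ch_target (a : ℝ × ℝ) :
    (ch a).target = {v | (L v).1 ∈ Ioo a.1 (a.1 + 1) ∧ (L v).2 ∈ Ioo a.2 (a.2 + 1)} := by
  ext v
  simp [ch]

/-- The representative in `[b, b+1)`. -/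
noncomputable def rp (b : ℝ) (x : K) : ℝ := AddCircle.equivIco 1 b x

lemma coe_rp (b : ℝ) (x : K) : ((rp b x : ℝ) : K) = x := by
  exact (AddCircle.equivIco 1 b).symm_apply_apply x

lemma rp_mem (b : ℝ) (x : K) : rp b x ∈ Ico b (b + 1) := (AddCircle.equivIco 1 b x).2

lemma ch_apply (a : ℝ × ℝ) (p : Tor) : ch a p = L.symm (rp a.1 p.1, rp a.2 p.2) := rfl

lemma continuousAt_rp {b : ℝ} {x : K} (h : x ≠ (b : K)) : ContinuousAt (rp b) x := by
  have := AddCircle.continuousAt_equivIco 1 b h
  exact continuous_subtype_val.continuousAt.comp this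

/-- Two reals with the same class differ by an integer. -/
lemma exists_int {s t : ℝ} (h : (s : K) = (t : K)) : ∃ n : ℤ, s - t = n := by
  have h1 : ((s - t : ℝ) : K) = 0 := by
    rw [AddCircle.coe_sub, h, sub_self]
  obtain ⟨n, hn⟩ := (AddCircle.coe_eq_zero_iff (1 : ℝ)).1 h1
  exact ⟨n, by rw [← hn]; simp⟩

/-- The change of representatives is locally a translation. -/
lemma eventually_rp {b t : ℝ} (h : (t : K) ≠ (b : K)) :
    ∀ᶠ s : ℝ in 𝓝 t, rp b (s : K) = s + (rp b (t : K) - t) := by
  have h1 : ContinuousAt (fun s : ℝ => rp b (s : K) - s) t :=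
    (ContinuousAt.comp (f := fun s : ℝ => (s : K)) (continuousAt_rp h)
      (AddCircle.continuous_mk' 1).continuousAt).sub continuousAt_id
  have h2 := h1.eventually (Metric.ball_mem_nhds _ (by norm_num : (0 : ℝ) < 1))
  filter_upwards [h2] with s hs
  rw [Real.dist_eq] at hs
  obtain ⟨m, hm⟩ := exists_int (coe_rp b (s : K))
  obtain ⟨n, hn⟩ := exists_int (coe_rp b (t : K))
  rw [hm, hn] at hs
  have h3 : |m - n| < (1 : ℤ) := by exact_mod_cast hs
  have h4 : m = n := by
    rw [Int.abs_lt_one_iff] at h3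
    omega
  rw [hn, ← h4, ← hm]
  ring

lemma exists_ne (x : K) : x ≠ ((rp 0 x - 1 / 2 : ℝ) : K) := by
  intro h
  rw [← coe_rp 0 x] at h
  obtain ⟨n, hn⟩ := exists_int h
  rw [coe_rp] at hn
  have h1 : (2 * n : ℝ) = 1 := by linarith
  have h2 : 2 * n = 1 := by exact_mod_cast h1
  omega

/-- The charts. -/
noncomputable instance : ChartedSpace E2 Tor where
  atlas := range ch
  chartAt p := ch (rp 0 p.1 - 1 / 2, rp 0 p.2 - 1 / 2)
  mem_chart_source p := by
    rw [ch_source]
    exact ⟨exists_ne p.1, exists_ne p.2⟩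
  chart_mem_atlas p := mem_range_self _

lemma atlas_eq : atlas E2 Tor = range ch := rfl

lemma smooth_change (a b : ℝ × ℝ) {v : E2} (h : cov v ∈ (ch b).source) :
    ContDiffAt ℝ ∞ (fun w => ch b (cov w)) v := by
  rw [ch_source] at h
  obtain ⟨h1, h2⟩ := h
  have e1 := eventually_rp h1
  have e2 := eventually_rp h2
  have c1 : ContinuousAt (fun w => (L w).1) v := (continuous_fst.comp L.continuous).continuousAt
  have c2 : ContinuousAt (fun w => (L w).2) v := (continuous_snd.comp L.continuous).continuousAt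
  have h3 : (fun w => ch b (cov w)) =ᶠ[𝓝 v] fun w =>
      L.symm ((L w).1 + (rp b.1 (cov v).1 - (L v).1), (L w).2 + (rp b.2 (cov v).2 - (L v).2)) := by
    filter_upwards [c1.eventually e1, c2.eventually e2] with w hw1 hw2
    rw [ch_apply]
    exact congrArg L.symm (Prod.ext hw1 hw2)
  refine ContDiffAt.congr_of_eventuallyEq ?_ h3
  refine L.symm.contDiff.contDiffAt.comp v ?_
  exact ((contDiff_fst.comp L.contDiff).add contDiff_const).contDiffAt.prodMk
    ((contDiff_snd.comp L.contDiff).add contDiff_const).contDiffAt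

instance : IsManifold (𝓡 2) ∞ Tor := by
  apply isManifold_of_contDiffOn
  rintro e e' ⟨a, rfl⟩ ⟨b, rfl⟩ v hv
  obtain ⟨hv1, -⟩ := hv
  have h1 : cov v ∈ (ch b).source := by
    have := hv1
    simp only [modelWithCornersSelf_coe_symm, preimage_id_eq, id_eq,
      OpenPartialHomeomorph.trans_source, mem_inter_iff, mem_preimage] at this
    exact this.2
  exact (smooth_change a b h1).contDiffWithinAt

end Pool.Agent.TH724.SE
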