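import Pool.Agent.TH724.SE.Lio
import Pool.Agent.TH724.SE.Tor

/-!
# The cocycles over the Liouville rotation
-/

set_option autoImplicit false

open Filter Topology Set
open scoped ContDiff

namespace Pool.Agent.TH724.SE

/-- The rotation number, as a point of the circle. -/
noncomputable def a : K := (al : K)

lemma nsmul_coe (m : ℕ) (t : ℝ) : m • (t : K) = ((m * t : ℝ) : K) := by
  rw [← AddCircle.coe_nsmul, nsmul_eq_mul]

lemma zsmul_coe (m : ℤ) (t : ℝ) : m • (t : K) = ((m * t : ℝ) : K) := by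
  rw [← AddCircle.coe_zsmul, zsmul_eq_mul]

lemma coe_nat (p : ℕ) (t : ℝ) : ((p + t : ℝ) : K) = (t : K) := by
  have h : ((p : ℝ) : K) = 0 := by
    have := nsmul_coe p 1
    rw [mul_one] at this
    rw [← this, AddCircle.coe_period, nsmul_zero]
  rw [AddCircle.coe_add, h, zero_add]

lemma q_smul_a (n : ℕ) : q n • a = ((q n * r n : ℝ) : K) := by
  obtain ⟨p, hp⟩ := exists_nat_q n
  unfold a
  rw [nsmul_coe, hp, coe_nat]

lemma rep1 (N n : ℕ) : (q n : ℤ) • N • a = ((N * (q n * r n) : ℝ) : K) := by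
  rw [natCast_zsmul, smul_comm, q_smul_a, nsmul_coe]

lemma rep2' {N k : ℕ} (h : q k ∣ N) : N • a = ((N * r k : ℝ) : K) := by
  obtain ⟨j, rfl⟩ := h
  rw [mul_comm (q k) j, mul_smul, q_smul_a, nsmul_coe]
  push_cast
  congr 1
  ring

lemma rep2 {N k : ℕ} (h : q k ∣ N) (n : ℕ) :
    (q n : ℤ) • N • a = ((q n * (N * r k) : ℝ) : K) := by
  rw [rep2' h, zsmul_coe]
  push_cast
  rfl

lemma fourier_coe (n : ℤ) (t : ℝ) :
    (fourier n (t : K) : ℂ) = Complex.exp (Complex.I * ((2 * Real.pi * (n * t) : ℝ) : ℂ)) := by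
  rw [fourier_coe_apply]
  congr 1
  push_cast
  ring

lemma norm_fourier_one_sub (t : ℝ) : ‖(fourier 1 (t : K) : ℂ) - 1‖ ≤ 2 * Real.pi * |t| := by
  rw [fourier_coe]
  refine Real.norm_exp_I_mul_ofReal_sub_one_le.trans ?_
  rw [Real.norm_eq_abs, Int.cast_one, one_mul, abs_mul, abs_of_pos (by positivity)]

lemma norm_fourier (n : ℤ) (x : K) : ‖(fourier n x : ℂ)‖ = 1 := by
  rw [fourier_apply]
  exact Circle.norm_coe _

lemma fourier_eq_one (n : ℤ) (x : K) : (fourier n x : ℂ) = fourier 1 (n • x) := by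
  rw [fourier_apply, fourier_apply, one_smul]

lemma fourier_add_pt (n : ℤ) (x y : K) :
    (fourier n (x + y) : ℂ) = fourier n x * fourier n y := by
  rw [fourier_apply, fourier_apply, fourier_apply, smul_add, AddCircle.toCircle_add]
  rfl

lemma norm_fourier_sub (x : K) {n : ℤ} {t : ℝ} (h : n • x = (t : K)) :
    ‖(fourier n x : ℂ) - 1‖ ≤ 2 * Real.pi * |t| := by
  rw [fourier_eq_one, h]
  exact norm_fourier_one_sub t

/-- The basic functions. -/
noncomputable def C (n : ℕ) (x : K) : ℝ := (fourier (q n) x : ℂ).re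

lemma continuous_C (n : ℕ) : Continuous (C n) :=
  Complex.continuous_re.comp (fourier (q n)).continuous

lemma abs_C_le (n : ℕ) (x : K) : |C n x| ≤ 1 := by
  refine (Complex.abs_re_le_norm _).trans ?_
  rw [norm_fourier]

/-- The size of the displacement of the time `N` on the frequency `q n`. -/
noncomputable def dd (N n : ℕ) : ℝ := ‖(fourier (q n) (N • a) : ℂ) - 1‖

lemma dd_nonneg (N n : ℕ) : 0 ≤ dd N n := norm_nonneg _

lemma abs_C_sub (N n : ℕ) (x : K) : |C n (x + N • a) - C n x| ≤ dd N n := by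
  unfold C dd
  rw [← Complex.sub_re, fourier_add_pt]
  have h : (fourier (q n) x : ℂ) * fourier (q n) (N • a) - fourier (q n) x =
      fourier (q n) x * (fourier (q n) (N • a) - 1) := by ring
  rw [h]
  refine (Complex.abs_re_le_norm _).trans ?_
  rw [norm_mul, norm_fourier, one_mul]

lemma abs_C_add (N n : ℕ) (x : K) :
    |C n (x + N • a) + C n x| ≤ ‖(fourier (q n) (N • a) : ℂ) + 1‖ := by
  unfold C
  rw [← Complex.add_re, fourier_add_pt]
  have h : (fourier (q n) x : ℂ) * fourier (q n) (N • a) + fourier (q n) x =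
      fourier (q n) x * (fourier (q n) (N • a) + 1) := by ring
  rw [h]
  refine (Complex.abs_re_le_norm _).trans ?_
  rw [norm_mul, norm_fourier, one_mul]

lemma dd_le1 (N n : ℕ) : dd N n ≤ 2 * Real.pi * (N * (q n * r n)) := by
  have h := norm_fourier_sub (N • a) (rep1 N n)
  rwa [abs_of_nonneg] at h
  have := (r_pos n).le
  positivity

lemma dd_le2 {N k : ℕ} (h : q k ∣ N) (n : ℕ) : dd N n ≤ 2 * Real.pi * (q n * (N * r k)) := by
  have h := norm_fourier_sub (N • a) (rep2 h n)
  rwa [abs_of_nonneg] at h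
  have := (r_pos k).le
  positivity

lemma qr_le (n : ℕ) : q n * r n ≤ 2 * rat n := by
  have h1 := (r_lt n).le
  have h2 := q_pos' n
  unfold rat
  calc q n * r n ≤ q n * (2 / q (n + 1)) := by gcongr
    _ = _ := by ring

lemma dd_one_le (n : ℕ) : dd 1 n ≤ B n := by
  refine (dd_le1 1 n).trans ?_
  have h1 := qr_le n
  have h2 := one_le_q n
  have h3 := rat_pos n
  have h4 := Real.pi_pos
  unfold B
  have h5 : rat n ≤ q n * rat n := by nlinarith
  push_cast
  nlinarith

/-- The times `q k`. -/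
lemma dd_q_le (k n : ℕ) : dd (q k) n ≤ B n := by
  have h4 := Real.pi_pos
  unfold B
  rcases le_total n k with h | h
  · refine (dd_le2 (dvd_refl (q k)) n).trans ?_
    have h1 := qr_le k
    have h2 := rat_anti h
    have h3 := q_pos' n
    have hh : q k * r k ≤ 2 * rat n := by linarith
    calc 2 * Real.pi * (q n * (q k * r k)) ≤ 2 * Real.pi * (q n * (2 * rat n)) := by
          gcongr
      _ = _ := by ring
  · refine (dd_le1 (q k) n).trans ?_
    have h1 := qr_le n
    have h2 := q_mono' h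
    have h3 := rat_pos n
    have h5 := q_pos' k
    have h6 := r_pos n
    have h7 := q_pos' n
    calc 2 * Real.pi * (q k * (q n * r n)) ≤ 2 * Real.pi * (q n * (2 * rat n)) := by
          gcongr
      _ = _ := by ring

lemma dd_q_tendsto (n : ℕ) : Tendsto (fun k => dd (q k) n) atTop (𝓝 0) := by
  have h1 : Tendsto (fun k => 2 * Real.pi * (q n * (2 * rat k))) atTop (𝓝 0) := by
    have := ((tendsto_rat.const_mul 2).const_mul (q n : ℝ)).const_mul (2 * Real.pi)
    simpa using this
  refine squeeze_zero (fun k => dd_nonneg _ _) (fun k => ?_) h1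
  refine (dd_le2 (dvd_refl (q k)) n).trans ?_
  have h1 := qr_le k
  have h3 := q_pos' n
  have h4 := Real.pi_pos
  gcongr

/-- The times `Nn k`, outside the frequency `q k`. -/
lemma Nr_le (k : ℕ) : Nn k * r k ≤ 1 / q k := by
  rw [Nn_eq]
  have h1 := (r_lt k).le
  have h2 := q_pos' k
  have h3 := q_pos' (k + 1)
  calc q (k + 1) / (2 * q k) * r k ≤ q (k + 1) / (2 * q k) * (2 / q (k + 1)) := by gcongr
    _ = 1 / q k := by field_simp

lemma dd_N_le {k n : ℕ} (hn : n ≠ k) : dd (Nn k) n ≤ B n := by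
  have h4 := Real.pi_pos
  have h0 := q_pos' n
  have h00 := rat_pos n
  unfold B
  rcases lt_or_gt_of_ne hn with h | h
  · refine (dd_le2 (q_dvd_Nn k) n).trans ?_
    have h1 := Nr_le k
    have h2 : (1 : ℝ) / q k ≤ rat n := by
      unfold rat
      have h3 : (q (n + 1) : ℝ) ≤ q k := q_mono' h
      have h5 := q_pos' (n + 1)
      calc (1 : ℝ) / q k ≤ 1 / q (n + 1) := one_div_le_one_div_of_le h5 h3
        _ ≤ q n / q (n + 1) := by
          gcongr
          exact one_le_q n
    calc 2 * Real.pi * (q n * (Nn k * r k)) ≤ 2 * Real.pi * (q n * rat n) := by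
          gcongr
          exact h1.trans h2
      _ ≤ 4 * Real.pi * (q n * rat n) := by
          gcongr
          norm_num
  · refine (dd_le1 (Nn k) n).trans ?_
    have h1 := qr_le n
    have h2 : (Nn k : ℝ) ≤ q n := (Nn_le k).trans (q_mono' h)
    calc 2 * Real.pi * (Nn k * (q n * r n)) ≤ 2 * Real.pi * (q n * (2 * rat n)) := by
          have := r_pos n
          gcongr
      _ = _ := by ring

/-- At the time `Nn k`, the frequency `q k` is turned by one half. -/
lemma half_eq (k : ℕ) : Nn k * (q k * r k) = 1 / 2 + q (k + 1) * r (k + 1) / 2 := by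
  rw [Nn_eq, r_eq]
  have h2 := (q_pos' k).ne'
  have h3 := (q_pos' (k + 1)).ne'
  field_simp

lemma dh_le (k : ℕ) : ‖(fourier (q k) (Nn k • a) : ℂ) + 1‖ ≤ B k := by
  have h1 := rep1 (Nn k) k
  rw [half_eq, AddCircle.coe_add] at h1
  have h2 : (fourier (q k) (Nn k • a) : ℂ) =
      - fourier 1 ((q (k + 1) * r (k + 1) / 2 : ℝ) : K) := by
    rw [fourier_eq_one, h1, fourier_add_pt]
    have h3 : (fourier 1 ((1 / 2 : ℝ) : K) : ℂ) = -1 := by
      rw [fourier_coe]
      have : Complex.I * ((2 * Real.pi * (((1 : ℤ) : ℝ) * (1 / 2)) : ℝ) : ℂ) =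
          Real.pi * Complex.I := by
        push_cast
        ring
      rw [this, Complex.exp_pi_mul_I]
    rw [h3]
    ring
  rw [h2]
  have h3 := norm_fourier_one_sub (q (k + 1) * r (k + 1) / 2)
  have h4 : ‖-(fourier 1 ((q (k + 1) * r (k + 1) / 2 : ℝ) : K) : ℂ) + 1‖ =
      ‖(fourier 1 ((q (k + 1) * r (k + 1) / 2 : ℝ) : K) : ℂ) - 1‖ := by
    rw [← norm_neg]
    congr 1
    ring
  rw [h4]
  refine h3.trans ?_
  have h5 := qr_le (k + 1)
  have h6 : rat (k + 1) ≤ rat k := rat_anti (by omega)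
  have h7 := rat_pos k
  have h8 := one_le_q k
  have h9 := Real.pi_pos
  rw [abs_of_nonneg (by have := r_pos (k + 1); positivity)]
  unfold B
  have h10 : rat k ≤ q k * rat k := by nlinarith
  nlinarith

lemma dd_N_tendsto (n : ℕ) : Tendsto (fun k => dd (Nn k) n) atTop (𝓝 0) := by
  have h1 : Tendsto (fun k => 2 * Real.pi * (q n * (1 / q k))) atTop (𝓝 0) := by
    have := ((tendsto_inv_q).const_mul (q n : ℝ)).const_mul (2 * Real.pi)
    simpa using this
  refine squeeze_zero (fun k => dd_nonneg _ _) (fun k => ?_) h1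
  refine (dd_le2 (q_dvd_Nn k) n).trans ?_
  have h1 := Nr_le k
  have h3 := q_pos' n
  have h4 := Real.pi_pos
  gcongr

lemma q_smul_tendsto : Tendsto (fun k => q k • a) atTop (𝓝 0) := by
  have h1 : Tendsto (fun k => (q k * r k : ℝ)) atTop (𝓝 0) := by
    refine squeeze_zero (fun k => ?_) qr_le (by simpa using tendsto_rat.const_mul 2)
    have := r_pos k
    positivity
  have h2 := (AddCircle.continuous_mk' (1 : ℝ)).tendsto 0 |>.comp h1
  refine h2.congr fun k => ?_
  exact (q_smul_a k).symm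

lemma Nn_smul_tendsto : Tendsto (fun k => Nn k • a) atTop (𝓝 0) := by
  have h1 : Tendsto (fun k => (Nn k * r k : ℝ)) atTop (𝓝 0) := by
    refine squeeze_zero (fun k => ?_) Nr_le tendsto_inv_q
    have := r_pos k
    positivity
  have h2 := (AddCircle.continuous_mk' (1 : ℝ)).tendsto 0 |>.comp h1
  refine h2.congr fun k => ?_
  exact (rep2' (q_dvd_Nn k)).symm

end Pool.Agent.TH724.SE
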