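import Mathlib

/-!
# A Liouville rotation and its rigidity times
-/

set_option autoImplicit false

open Filter Topology LiouvilleNumber Nat

namespace Pool.Agent.TH724.SE

/-- The rotation number. -/
noncomputable def al : ℝ := liouvilleNumber 2

/-- The frequencies. -/
def q (n : ℕ) : ℕ := 2 ^ (n + 2)!

/-- The remainders. -/
noncomputable def r (n : ℕ) : ℝ := remainder 2 (n + 2)

/-- The second sequence of rigidity times. -/
def Nn (n : ℕ) : ℕ := 2 ^ ((n + 3)! - (n + 2)! - 1)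

lemma q_pos (n : ℕ) : 0 < q n := by unfold q; positivity

lemma q_pos' (n : ℕ) : (0 : ℝ) < q n := by exact_mod_cast q_pos n

lemma q_succ (n : ℕ) : q (n + 1) = q n ^ (n + 3) := by
  unfold q
  rw [← pow_mul, show n + 1 + 2 = (n + 2) + 1 from rfl, factorial_succ]
  congr 1
  ring

lemma two_le_fac (n : ℕ) : n + 2 ≤ (n + 2)! := self_le_factorial _

lemma two_pow_le_q (n : ℕ) : 2 ^ (n + 2) ≤ q n := Nat.pow_le_pow_right (by norm_num) (two_le_fac n)

lemma two_pow_le_q' (n : ℕ) : (2 : ℝ) ^ (n + 2) ≤ q n := by exact_mod_cast two_pow_le_q n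

lemma four_le_q (n : ℕ) : (4 : ℝ) ≤ q n := by
  have h1 := two_pow_le_q' n
  have h2 : (2 : ℝ) ^ 2 ≤ 2 ^ (n + 2) := pow_le_pow_right₀ (by norm_num) (by omega)
  linarith

lemma one_le_q (n : ℕ) : (1 : ℝ) ≤ q n := by linarith [four_le_q n]

lemma q_mono : Monotone q := by
  intro m n h
  unfold q
  exact Nat.pow_le_pow_right (by norm_num) (factorial_le (by omega))

lemma q_mono' {m n : ℕ} (h : m ≤ n) : (q m : ℝ) ≤ q n := by exact_mod_cast q_mono h

lemma q_dvd {m n : ℕ} (h : m ≤ n) : q m ∣ q n := by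
  unfold q
  exact pow_dvd_pow 2 (factorial_le (by omega))

lemma r_pos (n : ℕ) : 0 < r n := remainder_pos (by norm_num) _

lemma r_lt (n : ℕ) : r n < 2 / q (n + 1) := by
  have h := remainder_lt' (n + 2) (m := 2) (by norm_num)
  unfold r q
  refine h.trans_eq ?_
  rw [show n + 1 + 2 = n + 2 + 1 from rfl]
  push_cast
  norm_num
  ring

/-- `q_n α` modulo `1`. -/
lemma exists_nat_q (n : ℕ) : ∃ p : ℕ, (q n : ℝ) * al = p + q n * r n := by
  obtain ⟨p, hp⟩ := partialSum_eq_rat (m := 2) (by norm_num) (n + 2)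
  refine ⟨p, ?_⟩
  have h := partialSum_add_remainder (m := 2) (by norm_num) (n + 2)
  unfold al r
  rw [← h]
  push_cast at hp
  rw [hp]
  have h0 : (q n : ℝ) = 2 ^ (n + 2)! := by unfold q; push_cast; rfl
  rw [← h0]
  have := (q_pos' n).ne'
  field_simp

/-- The ratios `q_n / q_{n+1}`. -/
noncomputable def rat (n : ℕ) : ℝ := q n / q (n + 1)

lemma rat_pos (n : ℕ) : 0 < rat n := div_pos (q_pos' n) (q_pos' _)

lemma rat_eq (n : ℕ) : rat n = 1 / (q n : ℝ) ^ (n + 2) := by
  unfold rat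
  rw [q_succ]
  push_cast
  have := (q_pos' n).ne'
  rw [show n + 3 = (n + 2) + 1 from rfl, pow_succ]
  field_simp

lemma rat_anti : Antitone rat := by
  apply antitone_nat_of_succ_le
  intro n
  rw [rat_eq, rat_eq]
  apply one_div_le_one_div_of_le (pow_pos (q_pos' n) _)
  have h1 : (q n : ℝ) ^ (n + 2) ≤ (q (n + 1) : ℝ) ^ (n + 2) :=
    pow_le_pow_left₀ (q_pos' n).le (q_mono' (by omega)) _
  exact h1.trans (pow_le_pow_right₀ (one_le_q _) (by omega))

/-- The common bound. -/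
noncomputable def B (n : ℕ) : ℝ := 4 * Real.pi * (q n * rat n)

lemma B_nonneg (n : ℕ) : 0 ≤ B n := by
  have := rat_pos n
  have := Real.pi_pos
  unfold B
  positivity

lemma pow_rat_le (j n : ℕ) (h : j ≤ n) : (q n : ℝ) ^ j * rat n ≤ (1 / 2) ^ n := by
  rw [rat_eq, show n + 2 = j + ((n - j) + 2) by omega, pow_add]
  have h0 := q_pos' n
  have h1 : (q n : ℝ) ^ j * (1 / ((q n : ℝ) ^ j * (q n : ℝ) ^ (n - j + 2))) =
      1 / (q n : ℝ) ^ (n - j + 2) := by
    field_simp
  rw [h1]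
  have h2 : (2 : ℝ) ^ n ≤ (q n : ℝ) ^ (n - j + 2) := by
    calc (2 : ℝ) ^ n ≤ 2 ^ (n + 2) := pow_le_pow_right₀ (by norm_num) (by omega)
      _ ≤ q n := two_pow_le_q' n
      _ = (q n : ℝ) ^ 1 := (pow_one _).symm
      _ ≤ _ := pow_le_pow_right₀ (one_le_q n) (by omega)
  calc 1 / (q n : ℝ) ^ (n - j + 2) ≤ 1 / 2 ^ n :=
        one_div_le_one_div_of_le (by positivity) h2
    _ = (1 / 2) ^ n := by rw [one_div_pow]

lemma summable_pow_rat (j : ℕ) : Summable fun n => (q n : ℝ) ^ j * rat n := by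
  have hg : Summable fun n : ℕ => ((1 : ℝ) / 2) ^ n := summable_geometric_two
  refine summable_of_isBigO_nat hg ?_
  apply Asymptotics.IsBigO.of_bound 1
  filter_upwards [eventually_ge_atTop j] with n hn
  have h1 := pow_rat_le j n hn
  have h2 : 0 ≤ (q n : ℝ) ^ j * rat n := by
    have := rat_pos n
    positivity
  rw [Real.norm_of_nonneg h2, Real.norm_of_nonneg (by positivity), one_mul]
  exact h1

lemma summable_B : Summable B := by
  have h := (summable_pow_rat 1).mul_left (4 * Real.pi)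
  refine h.congr fun n => ?_
  rw [pow_one]
  rfl

lemma tendsto_rat : Tendsto rat atTop (𝓝 0) := by
  have := (summable_pow_rat 0).tendsto_atTop_zero
  simpa using this

lemma tendsto_inv_q : Tendsto (fun n => 1 / (q n : ℝ)) atTop (𝓝 0) := by
  have h1 : Tendsto (fun n : ℕ => ((1 : ℝ) / 2) ^ n) atTop (𝓝 0) :=
    tendsto_pow_atTop_nhds_zero_of_lt_one (by norm_num) (by norm_num)
  refine squeeze_zero (fun n => by positivity) (fun n => ?_) h1
  rw [one_div_pow]
  apply one_div_le_one_div_of_le (by positivity)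
  exact (pow_le_pow_right₀ (by norm_num) (by omega : n ≤ n + 2)).trans (two_pow_le_q' n)

/-! ### The times `Nn` -/

lemma fac_aux (n : ℕ) : (n + 3)! = (n + 1) * (n + 2)! + 2 * (n + 2)! := by
  rw [show n + 3 = (n + 2) + 1 from rfl, factorial_succ]
  ring

lemma q_dvd_Nn (n : ℕ) : q n ∣ Nn n := by
  unfold q Nn
  apply pow_dvd_pow
  have h1 := fac_aux n
  have h2 := two_le_fac n
  have h3 : (n + 2)! ≤ (n + 1) * (n + 2)! := Nat.le_mul_of_pos_left _ (by omega)
  omega

lemma Nn_mul (n : ℕ) : 2 * (Nn n * q n) = q (n + 1) := by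
  unfold q Nn
  rw [← pow_add, ← pow_succ']
  congr 1
  have h1 := fac_aux n
  have h2 := two_le_fac n
  have h3 : (n + 2)! ≤ (n + 1) * (n + 2)! := Nat.le_mul_of_pos_left _ (by omega)
  rw [show n + 1 + 2 = n + 3 from rfl]
  omega

lemma Nn_eq (n : ℕ) : (Nn n : ℝ) = q (n + 1) / (2 * q n) := by
  have h : (2 * (Nn n * q n) : ℝ) = q (n + 1) := by exact_mod_cast Nn_mul n
  have := (q_pos' n).ne'
  rw [← h]
  field_simp

lemma Nn_le (n : ℕ) : (Nn n : ℝ) ≤ q (n + 1) := by
  rw [Nn_eq]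
  apply div_le_self (q_pos' _).le
  linarith [four_le_q n]

/-- The remainders, one step further. -/
lemma r_eq (n : ℕ) : r n = 1 / q (n + 1) + r (n + 1) := by
  have h1 := partialSum_add_remainder (m := 2) (by norm_num) (n + 2)
  have h2 := partialSum_add_remainder (m := 2) (by norm_num) (n + 1 + 2)
  have h3 := partialSum_succ 2 (n + 2)
  unfold r q
  push_cast
  rw [show n + 1 + 2 = n + 2 + 1 from rfl] at *
  linarith

end Pool.Agent.TH724.SE
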