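import Pool.Agent.TH724.SE.Rig

/-!
# Cocycles with distant parameters are not cohomologous
-/

set_option autoImplicit false

open Filter Topology Set MeasureTheory

namespace Pool.Agent.TH724.SE

/-- The half period of the frequency `q k`. -/
noncomputable def hp (k : ℕ) : K := ((1 / 2 / ((q k : ℤ) : ℝ) : ℝ) : K)

lemma C_add_hp (k : ℕ) (x : K) : C k (x + hp k) = - C k x := by
  unfold C hp
  have h := fourier_add_half_inv_index (T := 1) (n := (q k : ℤ))
    (by have := q_pos k; positivity) one_pos x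
  rw [h, Complex.neg_re]

/-- The main part of the Birkhoff sums. -/
noncomputable def gg (s t : ℝ) (k : ℕ) (c x : K) : ℝ := 2 * (s * C k x) - 2 * (t * C k (x + c))

lemma continuous_gg (s t : ℝ) (k : ℕ) (c : K) : Continuous (gg s t k c) :=
  (continuous_const.mul (continuous_const.mul (continuous_C k))).sub
    (continuous_const.mul (continuous_const.mul
      ((continuous_C k).comp (continuous_id.add continuous_const))))

lemma gg_add_hp (s t : ℝ) (k : ℕ) (c x : K) : gg s t k c (x + hp k) = - gg s t k c x := by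
  unfold gg
  rw [C_add_hp, add_right_comm, C_add_hp]
  ring

lemma abs_gg_le {s t : ℝ} (hs : |s| ≤ 1 / 50) (ht : |t| ≤ 1 / 50) (k : ℕ) (c x : K) :
    |gg s t k c x| ≤ 1 / 4 := by
  unfold gg
  have h1 := abs_C_le k x
  have h2 := abs_C_le k (x + c)
  have h3 : |s * C k x| ≤ 1 / 50 * 1 := by
    rw [abs_mul]
    exact mul_le_mul hs h1 (abs_nonneg _) (by norm_num)
  have h4 : |t * C k (x + c)| ≤ 1 / 50 * 1 := by
    rw [abs_mul]
    exact mul_le_mul ht h2 (abs_nonneg _) (by norm_num)
  rw [abs_le] at h3 h4 ⊢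
  constructor <;> linarith [h3.1, h3.2, h4.1, h4.2]

lemma integral_gg (s t : ℝ) (hs : 0 ≤ s) (ht : 0 ≤ t) (k : ℕ) (c : K) :
    |s - t| ≤ ∫ x, |gg s t k c x| := by
  have hq : (-(2 * (q k : ℤ))) ≠ 0 := by have := q_pos k; omega
  set z : ℂ := fourier (q k) c
  have hz : ‖z‖ = 1 := norm_fourier _ _
  have h1 : ∀ x : K, ((gg s t k c x : ℝ) : ℂ) * fourier (-(q k : ℤ)) x =
      (s - t * z) + (s - t * (starRingEnd ℂ) z) * fourier (-(2 * (q k : ℤ))) x := by
    intro x
    have e1 : ((C k x : ℝ) : ℂ) = (fourier (q k) x + fourier (-(q k : ℤ)) x) / 2 := by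
      unfold C
      rw [Complex.re_eq_add_conj, fourier_neg]
    have e2 : ((C k (x + c) : ℝ) : ℂ) =
        (fourier (q k) x * z + fourier (-(q k : ℤ)) x * (starRingEnd ℂ) z) / 2 := by
      unfold C
      rw [Complex.re_eq_add_conj, fourier_add_pt, map_mul, ← fourier_neg]
    have e3 : (fourier (q k) x : ℂ) * fourier (-(q k : ℤ)) x = 1 := by
      rw [← fourier_add, add_neg_cancel, fourier_zero]
    have e4 : (fourier (-(2 * (q k : ℤ))) x : ℂ) =
        fourier (-(q k : ℤ)) x * fourier (-(q k : ℤ)) x := by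
      rw [← fourier_add]
      congr 2
      ring
    unfold gg
    rw [e4]
    push_cast
    rw [e1, e2]
    linear_combination (s - t * z) * e3
  have h2 : ∫ x, ((gg s t k c x : ℝ) : ℂ) * fourier (-(q k : ℤ)) x = s - t * z := by
    simp only [h1]
    have e := integral_add (μ := (volume : Measure K)) (f := fun _ => (s : ℂ) - t * z)
      (g := fun x => (s - t * (starRingEnd ℂ) z) * fourier (-(2 * (q k : ℤ))) x)
      (integrable_const _)
      (integrable_of_cont (continuous_const.mul (fourier _).continuous))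
    rw [e, integral_const_mul, integral_fourier hq]
    simp
  have h3 : |s - t| ≤ ‖(s : ℂ) - t * z‖ := by
    have h4 := abs_norm_sub_norm_le (s : ℂ) (t * z)
    rw [norm_mul, hz, mul_one, Complex.norm_real, Complex.norm_real, Real.norm_of_nonneg hs,
      Real.norm_of_nonneg ht] at h4
    exact h4
  refine h3.trans ?_
  rw [← h2]
  refine (norm_integral_le_integral_norm _).trans_eq ?_
  refine integral_congr_ae (Eventually.of_forall fun x => ?_)
  simp only [norm_mul, norm_fourier, mul_one, Complex.norm_real, Real.norm_eq_abs]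

lemma norm_sub_conj (t : ℝ) (ht : |t| ≤ 1 / 4) :
    8 * |t| ≤ ‖(fourier 1 (t : K) : ℂ) - fourier 1 ((-t : ℝ) : K)‖ := by
  have h1 : (fourier 1 (t : K) : ℂ) - fourier 1 ((-t : ℝ) : K) =
      2 * Complex.I * ((Real.sin (2 * Real.pi * t) : ℝ) : ℂ) := by
    rw [fourier_coe, fourier_coe, Complex.ofReal_sin]
    have e1 : Complex.I * ((2 * Real.pi * (((1 : ℤ) : ℝ) * t) : ℝ) : ℂ) =
        ((2 * Real.pi * t : ℝ) : ℂ) * Complex.I := by
      push_cast
      ring
    have e2 : Complex.I * ((2 * Real.pi * (((1 : ℤ) : ℝ) * (-t)) : ℝ) : ℂ) =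
        -((2 * Real.pi * t : ℝ) : ℂ) * Complex.I := by
      push_cast
      ring
    rw [e1, e2, Complex.sin]
    have := Complex.I_mul_I
    linear_combination (Complex.exp (((2 * Real.pi * t : ℝ) : ℂ) * Complex.I) -
      Complex.exp (-((2 * Real.pi * t : ℝ) : ℂ) * Complex.I)) * this
  rw [h1, norm_mul, norm_mul, Complex.norm_I, Complex.norm_real, Real.norm_eq_abs]
  have h2 : |2 * Real.pi * t| = 2 * Real.pi * |t| := by
    rw [abs_mul, abs_of_pos (by positivity)]
  have h3 : |2 * Real.pi * t| ≤ Real.pi / 2 := by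
    rw [h2]
    have := Real.pi_pos
    nlinarith
  have h4 := Real.mul_abs_le_abs_sin h3
  rw [h2] at h4
  have h5 : 2 / Real.pi * (2 * Real.pi * |t|) = 4 * |t| := by
    have := Real.pi_pos.ne'
    field_simp
    ring
  rw [h5] at h4
  norm_num
  linarith

lemma low {s t : ℝ} (hs : 0 ≤ s) (ht : 0 ≤ t) (hs' : s ≤ 1 / 50) (ht' : t ≤ 1 / 50) (k : ℕ)
    (c κ : K) :
    4 * |s - t| ≤ ∫ x, ‖(fourier 1 (κ + ((gg s t k c x : ℝ) : K)) : ℂ) - 1‖ := by
  have hc : Continuous fun x => ‖(fourier 1 (κ + ((gg s t k c x : ℝ) : K)) : ℂ) - 1‖ :=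
    (((fourier 1).continuous.comp (continuous_const.add
      ((AddCircle.continuous_mk' 1).comp (continuous_gg s t k c)))).sub continuous_const).norm
  have h1 : (∫ x, ‖(fourier 1 (κ + ((gg s t k c (x + hp k) : ℝ) : K)) : ℂ) - 1‖) =
      ∫ x, ‖(fourier 1 (κ + ((gg s t k c x : ℝ) : K)) : ℂ) - 1‖ :=
    integral_add_right_eq_self
      (fun x => ‖(fourier 1 (κ + ((gg s t k c x : ℝ) : K)) : ℂ) - 1‖) (hp k)
  have hc' : Continuous fun x => ‖(fourier 1 (κ + ((gg s t k c (x + hp k) : ℝ) : K)) : ℂ) - 1‖ :=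
    hc.comp (continuous_id.add continuous_const)
  have h2 : ∀ x, 8 * |gg s t k c x| ≤
      ‖(fourier 1 (κ + ((gg s t k c x : ℝ) : K)) : ℂ) - 1‖ +
      ‖(fourier 1 (κ + ((gg s t k c (x + hp k) : ℝ) : K)) : ℂ) - 1‖ := by
    intro x
    have h3 := norm_sub_conj (gg s t k c x)
      (abs_gg_le (by rwa [abs_of_nonneg hs]) (by rwa [abs_of_nonneg ht]) k c x)
    rw [gg_add_hp, fourier_add_pt, fourier_add_pt]
    refine h3.trans ?_
    have h4 : ‖(fourier 1 ((gg s t k c x : ℝ) : K) : ℂ) -
        fourier 1 ((-gg s t k c x : ℝ) : K)‖ =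
        ‖((fourier 1 κ : ℂ) * fourier 1 ((gg s t k c x : ℝ) : K) - 1) -
          ((fourier 1 κ : ℂ) * fourier 1 ((-gg s t k c x : ℝ) : K) - 1)‖ := by
      have : ((fourier 1 κ : ℂ) * fourier 1 ((gg s t k c x : ℝ) : K) - 1) -
          ((fourier 1 κ : ℂ) * fourier 1 ((-gg s t k c x : ℝ) : K) - 1) =
          fourier 1 κ * ((fourier 1 ((gg s t k c x : ℝ) : K) : ℂ) -
            fourier 1 ((-gg s t k c x : ℝ) : K)) := by ring
      rw [this, norm_mul, norm_fourier, one_mul]
    rw [h4]
    exact norm_sub_le _ _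
  have h3 : ∫ x, 8 * |gg s t k c x| ≤
      ∫ x, (‖(fourier 1 (κ + ((gg s t k c x : ℝ) : K)) : ℂ) - 1‖ +
      ‖(fourier 1 (κ + ((gg s t k c (x + hp k) : ℝ) : K)) : ℂ) - 1‖) :=
    integral_mono (integrable_of_cont' (continuous_const.mul (continuous_gg s t k c).abs))
      (integrable_of_cont' (hc.add hc')) h2
  rw [integral_add (integrable_of_cont' hc) (integrable_of_cont' hc'), h1,
    integral_const_mul] at h3
  have h4 := integral_gg s t hs ht k c
  linarith

/-- Cocycles whose parameters differ by a fixed amount infinitely often are not cohomologous, not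
even after a rotation and up to a constant. -/
theorem far {u : K → ℂ} (hum : Measurable u) (hun : ∀ᵐ x, ‖u x‖ = 1) {s t : ℕ → ℝ}
    (hs : ∀ n, 0 ≤ s n) (hs' : ∀ n, s n ≤ 1 / 50) (ht : ∀ n, 0 ≤ t n) (ht' : ∀ n, t n ≤ 1 / 50)
    {c d : K} {δ : ℝ} (hδ : 0 < δ) (hfar : ∃ᶠ k in atTop, δ ≤ |s k - t k|)
    (huw : ∀ᵐ x, u (x + a) = u x *
      fourier 1 ((0 : ℤ) • x + d + ((F t (x + c) - F s x : ℝ) : K))) : False := by
  have as : ∀ n, |s n| ≤ 1 := fun n => by
    rw [abs_of_nonneg (hs n)]; linarith [hs' n]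
  have at' : ∀ n, |t n| ≤ 1 := fun n => by
    rw [abs_of_nonneg (ht n)]; linarith [ht' n]
  have hG : Continuous fun x => F t (x + c) - F s x :=
    ((continuous_F at').comp (continuous_id.add continuous_const)).sub (continuous_F as)
  have h1 := rig hum hun huw Nn_smul_tendsto
  have h2 : ∀ k, 4 * |s k - t k| ≤ (∫ x, ‖∏ i ∈ Finset.range (Nn k),
      (fourier 1 ((0 : ℤ) • (x + i • a) + d +
        ((F t (x + i • a + c) - F s (x + i • a) : ℝ) : K)) : ℂ) - 1‖) +
        2 * Real.pi * (2 * ∑' n, dk k n) := by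
    intro k
    set κ : K := ∑ i ∈ Finset.range (Nn k), ((0 : ℤ) • i • a + d)
    have hP : ∀ x, ∏ i ∈ Finset.range (Nn k), (fourier 1 ((0 : ℤ) • (x + i • a) + d +
        ((F t (x + i • a + c) - F s (x + i • a) : ℝ) : K)) : ℂ) =
        fourier 1 (κ + ((∑ i ∈ Finset.range (Nn k),
          (F t (x + i • a + c) - F s (x + i • a)) : ℝ) : K)) := by
      intro x
      have h := prod_eq 0 d (fun x => F t (x + c) - F s x) (Nn k) x
      rw [mul_zero, zero_smul, zero_add] at h
      exact h
    simp only [hP]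
    refine (low (hs k) (ht k) (hs' k) (ht' k) k c κ).trans ?_
    have hc1 : Continuous fun x => (fourier 1 (κ + ((∑ i ∈ Finset.range (Nn k),
          (F t (x + i • a + c) - F s (x + i • a)) : ℝ) : K)) : ℂ) :=
      (fourier 1).continuous.comp (continuous_const.add
        ((AddCircle.continuous_mk' 1).comp (continuous_birk hG (Nn k))))
    have hc2 : Continuous fun x => (fourier 1 (κ + ((gg (s k) (t k) k c x : ℝ) : K)) : ℂ) :=
      (fourier 1).continuous.comp (continuous_const.add
        ((AddCircle.continuous_mk' 1).comp (continuous_gg _ _ k c)))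
    have h3 : ∀ x, ‖(fourier 1 (κ + ((gg (s k) (t k) k c x : ℝ) : K)) : ℂ) - 1‖ ≤
        ‖(fourier 1 (κ + ((∑ i ∈ Finset.range (Nn k),
          (F t (x + i • a + c) - F s (x + i • a)) : ℝ) : K)) : ℂ) - 1‖ +
        2 * Real.pi * (2 * ∑' n, dk k n) := by
      intro x
      have e1 : κ + ((gg (s k) (t k) k c x : ℝ) : K) =
          (κ + ((∑ i ∈ Finset.range (Nn k),
          (F t (x + i • a + c) - F s (x + i • a)) : ℝ) : K)) +
          ((gg (s k) (t k) k c x - ∑ i ∈ Finset.range (Nn k),
          (F t (x + i • a + c) - F s (x + i • a)) : ℝ) : K) := by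
        rw [add_assoc, ← AddCircle.coe_add]
        congr 2
        ring
      have e2 := norm_fourier_add_sub (κ + ((∑ i ∈ Finset.range (Nn k),
          (F t (x + i • a + c) - F s (x + i • a)) : ℝ) : K))
          (gg (s k) (t k) k c x - ∑ i ∈ Finset.range (Nn k),
          (F t (x + i • a + c) - F s (x + i • a)))
      rw [← e1] at e2
      have e3 : |gg (s k) (t k) k c x - ∑ i ∈ Finset.range (Nn k),
          (F t (x + i • a + c) - F s (x + i • a))| ≤ 2 * ∑' n, dk k n := by
        have b1 := birkhoff_half as k x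
        have b2 := birkhoff_half at' k (x + c)
        have b3 : ∑ i ∈ Finset.range (Nn k), F t (x + c + i • a) =
            ∑ i ∈ Finset.range (Nn k), F t (x + i • a + c) :=
          Finset.sum_congr rfl fun i _ => by rw [add_right_comm]
        rw [b3] at b2
        rw [Finset.sum_sub_distrib]
        unfold gg
        rw [abs_le] at b1 b2 ⊢
        constructor <;> linarith [b1.1, b1.2, b2.1, b2.2]
      have e4 : 2 * Real.pi * |gg (s k) (t k) k c x - ∑ i ∈ Finset.range (Nn k),
          (F t (x + i • a + c) - F s (x + i • a))| ≤ 2 * Real.pi * (2 * ∑' n, dk k n) := by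
        have := Real.pi_pos
        gcongr
      have e5 := norm_sub_le_norm_sub_add_norm_sub
        (fourier 1 (κ + ((gg (s k) (t k) k c x : ℝ) : K)) : ℂ)
        (fourier 1 (κ + ((∑ i ∈ Finset.range (Nn k),
          (F t (x + i • a + c) - F s (x + i • a)) : ℝ) : K)) : ℂ) 1
      linarith
    refine (integral_mono (integrable_of_cont (hc2.sub continuous_const)).norm
      (((integrable_of_cont (hc1.sub continuous_const)).norm).add (integrable_const _)) h3).trans ?_
    have e := integral_add (μ := (volume : Measure K))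
      (f := fun x => ‖(fourier 1 (κ + ((∑ i ∈ Finset.range (Nn k),
          (F t (x + i • a + c) - F s (x + i • a)) : ℝ) : K)) : ℂ) - 1‖)
      (g := fun _ => 2 * Real.pi * (2 * ∑' n, dk k n))
      ((integrable_of_cont (hc1.sub continuous_const)).norm) (integrable_const _)
    refine e.le.trans ?_
    simp
  have h3 : Tendsto (fun k => (∫ x, ‖∏ i ∈ Finset.range (Nn k),
      (fourier 1 ((0 : ℤ) • (x + i • a) + d +
        ((F t (x + i • a + c) - F s (x + i • a) : ℝ) : K)) : ℂ) - 1‖) +
        2 * Real.pi * (2 * ∑' n, dk k n)) atTop (𝓝 0) := by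
    have := h1.add ((tendsto_dk.const_mul 2).const_mul (2 * Real.pi))
    simpa using this
  have h4 : ∀ᶠ k in atTop, (∫ x, ‖∏ i ∈ Finset.range (Nn k),
      (fourier 1 ((0 : ℤ) • (x + i • a) + d +
        ((F t (x + i • a + c) - F s (x + i • a) : ℝ) : K)) : ℂ) - 1‖) +
        2 * Real.pi * (2 * ∑' n, dk k n) < 4 * δ :=
    h3.eventually_lt_const (by positivity)
  obtain ⟨k, hk1, hk2⟩ := (hfar.and_eventually h4).exists
  have := h2 k
  linarith

end Pool.Agent.TH724.SE
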