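import Pool.Agent.TH724.SE.Dif

/-!
# Rigidity of cocycles along the rigidity times of the rotation
-/

set_option autoImplicit false

open Filter Topology Set MeasureTheory

namespace Pool.Agent.TH724.SE

lemma integrable_of_cont {g : K → ℂ} (hg : Continuous g) : Integrable g volume :=
  hg.integrable_of_hasCompactSupport (HasCompactSupport.of_compactSpace g)

lemma integrable_of_cont' {g : K → ℝ} (hg : Continuous g) : Integrable g volume :=
  hg.integrable_of_hasCompactSupport (HasCompactSupport.of_compactSpace g)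

/-- Translation is continuous in the mean. -/
lemma trans_tendsto {u : K → ℂ} (hu : Integrable u volume) :
    Tendsto (fun b : K => ∫ x, ‖u (x + b) - u x‖) (𝓝 0) (𝓝 0) := by
  rw [Metric.tendsto_nhds]
  intro ε hε
  obtain ⟨g, hg, hgi⟩ := hu.exists_boundedContinuous_integral_sub_le (by positivity : 0 < ε / 4)
  have huc : UniformContinuous g := CompactSpace.uniformContinuous_of_continuous g.continuous
  rw [Metric.uniformContinuous_iff] at huc
  obtain ⟨δ, hδ, h⟩ := huc (ε / 4) (by positivity)
  filter_upwards [Metric.ball_mem_nhds (0 : K) hδ] with b hb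
  rw [mem_ball_zero_iff] at hb
  have h1 : ∀ x, ‖u (x + b) - u x‖ ≤ ‖u (x + b) - g (x + b)‖ + ε / 4 + ‖u x - g x‖ := by
    intro x
    have h2 : ‖g (x + b) - g x‖ < ε / 4 := by
      rw [← dist_eq_norm]
      apply h
      rw [dist_eq_norm]
      simpa using hb
    have h3 : u (x + b) - u x = (u (x + b) - g (x + b)) + (g (x + b) - g x) + (g x - u x) := by
      ring
    rw [h3]
    have h4 := norm_add₃_le (a := u (x + b) - g (x + b)) (b := g (x + b) - g x) (c := g x - u x)
    have h5 : ‖g x - u x‖ = ‖u x - g x‖ := norm_sub_rev _ _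
    linarith
  have hi1 : Integrable (fun x => ‖u (x + b) - g (x + b)‖) volume :=
    (((measurePreserving_add_right volume b).integrable_comp_of_integrable
      (hu.sub hgi))).norm
  have hi2 : Integrable (fun x => ‖u x - g x‖) volume := (hu.sub hgi).norm
  have hi3 : Integrable (fun x => u (x + b)) volume :=
    (measurePreserving_add_right volume b).integrable_comp_of_integrable hu
  have h2 : ∫ x, ‖u (x + b) - u x‖ ≤ ∫ x, (‖u (x + b) - g (x + b)‖ + ε / 4 + ‖u x - g x‖) :=
    integral_mono (hi3.sub hu).norm ((hi1.add (integrable_const _)).add hi2) h1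
  have h3 : ∫ x, (‖u (x + b) - g (x + b)‖ + ε / 4 + ‖u x - g x‖) =
      (∫ x, ‖u (x + b) - g (x + b)‖) + ε / 4 + ∫ x, ‖u x - g x‖ := by
    have e1 := integral_add (μ := (volume : Measure K))
      (f := fun x => ‖u (x + b) - g (x + b)‖ + ε / 4) (g := fun x => ‖u x - g x‖)
      (hi1.add (integrable_const _)) hi2
    have e2 := integral_add (μ := (volume : Measure K)) (f := fun x => ‖u (x + b) - g (x + b)‖)
      (g := fun _ => ε / 4) hi1 (integrable_const _)
    rw [e1, e2]
    simp
  have h4 : (∫ x, ‖u (x + b) - g (x + b)‖) = ∫ x, ‖u x - g x‖ :=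
    integral_add_right_eq_self (fun x => ‖u x - g x‖) b
  rw [Real.dist_eq, sub_zero, abs_of_nonneg (integral_nonneg fun x => norm_nonneg _)]
  linarith

section cocycle

variable {u w : K → ℂ}

lemma ae_trans {p : K → Prop} (h : ∀ᵐ x, p x) (b : K) : ∀ᵐ x, p (x + b) :=
  (measurePreserving_add_right volume b).quasiMeasurePreserving.ae h

lemma iter (huw : ∀ᵐ x, u (x + a) = u x * w x) (N : ℕ) :
    ∀ᵐ x, u (x + N • a) = u x * ∏ i ∈ Finset.range N, w (x + i • a) := by
  induction N with
  | zero => exact Eventually.of_forall fun x => by simp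
  | succ N ih =>
    filter_upwards [ih, ae_trans huw (N • a)] with x h1 h2
    rw [Finset.prod_range_succ, ← mul_assoc, ← h1, ← h2, succ_nsmul, add_assoc]

lemma rig (hum : Measurable u) (hun : ∀ᵐ x, ‖u x‖ = 1) (huw : ∀ᵐ x, u (x + a) = u x * w x)
    {M : ℕ → ℕ} (hM : Tendsto (fun k => M k • a) atTop (𝓝 0)) :
    Tendsto (fun k => ∫ x, ‖∏ i ∈ Finset.range (M k), w (x + i • a) - 1‖) atTop (𝓝 0) := by
  have hi : Integrable u volume := Integrable.of_bound hum.aestronglyMeasurable 1
    (hun.mono fun x hx => hx.le)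
  have h := (trans_tendsto hi).comp hM
  refine h.congr fun k => ?_
  refine integral_congr_ae ?_
  filter_upwards [iter huw (M k), hun] with x h1 h2
  rw [h1]
  have h3 : u x * ∏ i ∈ Finset.range (M k), w (x + i • a) - u x =
      u x * (∏ i ∈ Finset.range (M k), w (x + i • a) - 1) := by ring
  rw [h3, norm_mul, h2, one_mul]

end cocycle

lemma prod_eq (l : ℤ) (c : K) (G : K → ℝ) (N : ℕ) (x : K) :
    ∏ i ∈ Finset.range N, (fourier 1 (l • (x + i • a) + c + ((G (x + i • a) : ℝ) : K)) : ℂ) =
      fourier 1 (((N : ℤ) * l) • x + (∑ i ∈ Finset.range N, (l • i • a + c)) +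
        ((∑ i ∈ Finset.range N, G (x + i • a) : ℝ) : K)) := by
  induction N with
  | zero =>
    simp
  | succ N ih =>
    rw [Finset.prod_range_succ, ih, Finset.sum_range_succ, Finset.sum_range_succ,
      ← fourier_add_pt]
    congr 1
    rw [AddCircle.coe_add]
    push_cast
    rw [add_mul, one_mul, add_smul, smul_add]
    abel

lemma norm_fourier_add_sub (y : K) (t : ℝ) :
    ‖(fourier 1 (y + (t : K)) : ℂ) - fourier 1 y‖ ≤ 2 * Real.pi * |t| := by
  rw [fourier_add_pt]
  have h : (fourier 1 y : ℂ) * fourier 1 (t : K) - fourier 1 y =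
      fourier 1 y * (fourier 1 (t : K) - 1) := by ring
  rw [h, norm_mul, norm_fourier, one_mul]
  exact norm_fourier_one_sub t

lemma integral_fourier {n : ℤ} (hn : n ≠ 0) : ∫ x : K, (fourier n x : ℂ) = 0 :=
  integral_eq_zero_of_add_right_eq_neg (fourier_add_half_inv_index hn one_pos)

lemma continuous_birk {G : K → ℝ} (hG : Continuous G) (N : ℕ) :
    Continuous fun x => ∑ i ∈ Finset.range N, G (x + i • a) :=
  continuous_finsetSum _ fun _ _ => hG.comp (continuous_id.add continuous_const)

/-- A cocycle of nonzero degree is not a coboundary. -/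
theorem noCob {u : K → ℂ} (hum : Measurable u) (hun : ∀ᵐ x, ‖u x‖ = 1) {l : ℤ} (hl : l ≠ 0)
    {c : K} {G : K → ℝ} (hG : Continuous G) {E : ℕ → ℝ} (hE : Tendsto E atTop (𝓝 0))
    (hGE : ∀ k x, |∑ i ∈ Finset.range (q k), G (x + i • a)| ≤ E k)
    (huw : ∀ᵐ x, u (x + a) = u x * fourier 1 (l • x + c + ((G x : ℝ) : K))) : False := by
  have h1 := rig hum hun huw q_smul_tendsto
  have h2 : ∀ k, 1 ≤ (∫ x, ‖∏ i ∈ Finset.range (q k),
      (fourier 1 (l • (x + i • a) + c + ((G (x + i • a) : ℝ) : K)) : ℂ) - 1‖) +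
        2 * Real.pi * E k := by
    intro k
    set κ : K := ∑ i ∈ Finset.range (q k), (l • i • a + c)
    have hP : ∀ x, ∏ i ∈ Finset.range (q k),
        (fourier 1 (l • (x + i • a) + c + ((G (x + i • a) : ℝ) : K)) : ℂ) =
        fourier 1 (((q k : ℤ) * l) • x + κ + ((∑ i ∈ Finset.range (q k), G (x + i • a) : ℝ) : K)) :=
      fun x => prod_eq l c G (q k) x
    simp only [hP]
    have hc1 : Continuous fun x : K => ((∑ i ∈ Finset.range (q k), G (x + i • a) : ℝ) : K) :=
      (AddCircle.continuous_mk' 1).comp (continuous_birk hG _)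
    have hc2 : Continuous fun x : K => ((q k : ℤ) * l) • x + κ :=
      (continuous_zsmul _).add continuous_const
    have hc3 : Continuous fun x : K => (fourier 1 (((q k : ℤ) * l) • x + κ +
        ((∑ i ∈ Finset.range (q k), G (x + i • a) : ℝ) : K)) : ℂ) :=
      (fourier 1).continuous.comp (hc2.add hc1)
    have hc4 : Continuous fun x : K => (fourier 1 (((q k : ℤ) * l) • x + κ) : ℂ) :=
      (fourier 1).continuous.comp hc2
    have hz : ∫ x : K, (fourier 1 (((q k : ℤ) * l) • x + κ) : ℂ) = 0 := by
      have : ∀ x : K, (fourier 1 (((q k : ℤ) * l) • x + κ) : ℂ) =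
          fourier ((q k : ℤ) * l) x * fourier 1 κ := by
        intro x
        rw [fourier_add_pt, ← fourier_eq_one]
      simp only [this]
      rw [integral_mul_const, integral_fourier, zero_mul]
      have := q_pos k
      positivity
    have e1 : (1 : ℂ) = (∫ x : K, ((fourier 1 (((q k : ℤ) * l) • x + κ +
        ((∑ i ∈ Finset.range (q k), G (x + i • a) : ℝ) : K)) : ℂ) -
          fourier 1 (((q k : ℤ) * l) • x + κ))) - ∫ x : K, ((fourier 1 (((q k : ℤ) * l) • x + κ +
        ((∑ i ∈ Finset.range (q k), G (x + i • a) : ℝ) : K)) : ℂ) - 1) := by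
      rw [integral_sub (integrable_of_cont hc3) (integrable_of_cont hc4), hz,
        integral_sub (integrable_of_cont hc3) (integrable_const _)]
      simp
    have e2 := congrArg norm e1
    rw [norm_one] at e2
    refine e2.le.trans ?_
    refine (norm_sub_le _ _).trans ?_
    rw [add_comm]
    refine add_le_add (norm_integral_le_integral_norm _) ?_
    refine (norm_integral_le_integral_norm _).trans ?_
    have h3 : ∀ x : K, ‖(fourier 1 (((q k : ℤ) * l) • x + κ +
        ((∑ i ∈ Finset.range (q k), G (x + i • a) : ℝ) : K)) : ℂ) -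
          fourier 1 (((q k : ℤ) * l) • x + κ)‖ ≤ 2 * Real.pi * E k := by
      intro x
      refine (norm_fourier_add_sub _ _).trans ?_
      have := hGE k x
      have := Real.pi_pos
      gcongr
    refine (integral_mono (integrable_of_cont (hc3.sub hc4)).norm (integrable_const _) h3).trans ?_
    simp
  have h3 : Tendsto (fun k => (∫ x, ‖∏ i ∈ Finset.range (q k),
      (fourier 1 (l • (x + i • a) + c + ((G (x + i • a) : ℝ) : K)) : ℂ) - 1‖) +
        2 * Real.pi * E k) atTop (𝓝 0) := by
    have := h1.add (hE.const_mul (2 * Real.pi))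
    simpa using this
  have h4 := ge_of_tendsto' h3 h2
  norm_num at h4

end Pool.Agent.TH724.SE
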